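import Pool.Agent.H16TT.Symb

/-!
From bounds for alternating sums to `LogSym`
-/

set_option autoImplicit false

open Filter Topology

namespace Pool.Agent.H16TT

theorem D_eq_fwd : D = fwdDiff (1 : ℕ) := by
  funext g n
  rfl

theorem iter_D_abs (r : ℕ) (f : ℕ → ℝ) (n : ℕ) : |(D^[r] f) n| =
    |∑ i ∈ Finset.range (r + 1), (-1 : ℝ) ^ i * (r.choose i : ℝ) * f (n + i)| := by
  have h := fwdDiff_iter_eq_sum_shift (1 : ℕ) f r n
  rw [D_eq_fwd, h]
  have e : ∑ k ∈ Finset.range (r + 1), ((-1 : ℤ) ^ (r - k) * (r.choose k : ℤ)) • f (n + k • 1) =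
      (-1 : ℝ) ^ r * ∑ i ∈ Finset.range (r + 1), (-1 : ℝ) ^ i * (r.choose i : ℝ) * f (n + i) := by
    rw [Finset.mul_sum]
    refine Finset.sum_congr rfl fun k hk => ?_
    have hk' : k ≤ r := by
      have := Finset.mem_range.1 hk
      omega
    have h1 : (-1 : ℝ) ^ (r - k) = (-1 : ℝ) ^ r * (-1 : ℝ) ^ k := by
      obtain ⟨m, rfl⟩ := Nat.exists_eq_add_of_le hk'
      rw [Nat.add_sub_cancel_left, pow_add]
      have : (-1 : ℝ) ^ k * (-1 : ℝ) ^ k = 1 := by rw [← mul_pow]; norm_num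
      calc (-1 : ℝ) ^ m = ((-1 : ℝ) ^ k * (-1 : ℝ) ^ k) * (-1 : ℝ) ^ m := by rw [this, one_mul]
        _ = _ := by ring
    rw [zsmul_eq_mul]
    push_cast
    rw [h1]
    simp only [smul_eq_mul, mul_one]
    ring
  rw [e, abs_mul, abs_pow, abs_neg, abs_one, one_pow, one_mul]

theorem rate_le {τ : ℝ} (hτ : τ < 1 / 2) {n : ℕ} (hn : 2 ≤ n) :
    Real.log n / Real.sqrt n ≤ (1 / 2 - τ)⁻¹ * (n : ℝ) ^ (-τ) := by
  have hn0 : (0 : ℝ) < n := by exact_mod_cast (by omega : 0 < n)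
  have hε : 0 < 1 / 2 - τ := by linarith
  have h1 := Real.log_le_rpow_div hn0.le hε
  have hs : 0 < Real.sqrt n := Real.sqrt_pos.2 hn0
  rw [div_le_iff₀ hs]
  refine h1.trans (le_of_eq ?_)
  rw [Real.sqrt_eq_rpow, mul_assoc, ← Real.rpow_add hn0, div_eq_inv_mul]
  congr 2
  ring

theorem logsym_of {f : ℕ → ℝ} (h : ∀ r, 1 ≤ r → ∃ K : ℝ, ∀ n : ℕ, 2 ≤ n →
    |∑ i ∈ Finset.range (r + 1), (-1 : ℝ) ^ i * (r.choose i : ℝ) * f (n + i)| ≤
      K * (Real.log n / Real.sqrt n) ^ r) {τ : ℝ} (hτ : τ < 1 / 2) :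
    LogSym (fun n => (n : ℝ) ^ (-τ)) f := by
  intro r hr
  obtain ⟨K, hK⟩ := h r hr
  have hε : 0 < 1 / 2 - τ := by linarith
  refine ⟨|K| * ((1 / 2 - τ)⁻¹) ^ r + |(D^[r] f) 1|, by positivity, fun n hn => ?_⟩
  rcases Nat.lt_or_ge n 2 with h2 | h2
  · obtain rfl : n = 1 := by omega
    simp only [Nat.cast_one, Real.one_rpow, one_pow, mul_one]
    have : 0 ≤ |K| * ((1 / 2 - τ)⁻¹) ^ r := by positivity
    linarith
  · rw [iter_D_abs]
    refine (hK n h2).trans ?_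
    have hn0 : (0 : ℝ) < n := by exact_mod_cast (by omega : 0 < n)
    have h3 : 0 ≤ Real.log n / Real.sqrt n :=
      div_nonneg (Real.log_natCast_nonneg n) (Real.sqrt_nonneg _)
    have h4 : (Real.log n / Real.sqrt n) ^ r ≤ ((1 / 2 - τ)⁻¹ * (n : ℝ) ^ (-τ)) ^ r :=
      pow_le_pow_left₀ h3 (rate_le hτ h2) r
    rw [mul_pow] at h4
    calc K * (Real.log n / Real.sqrt n) ^ r ≤ |K| * (Real.log n / Real.sqrt n) ^ r :=
          mul_le_mul_of_nonneg_right (le_abs_self K) (pow_nonneg h3 r)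
      _ ≤ |K| * (((1 / 2 - τ)⁻¹) ^ r * ((n : ℝ) ^ (-τ)) ^ r) :=
          mul_le_mul_of_nonneg_left h4 (abs_nonneg K)
      _ = |K| * ((1 / 2 - τ)⁻¹) ^ r * ((n : ℝ) ^ (-τ)) ^ r := by ring
      _ ≤ (|K| * ((1 / 2 - τ)⁻¹) ^ r + |(D^[r] f) 1|) * ((n : ℝ) ^ (-τ)) ^ r := by
          have h5 : 0 ≤ ((n : ℝ) ^ (-τ)) ^ r := by positivity
          have h6 := mul_nonneg (abs_nonneg ((D^[r] f) 1)) h5
          rw [add_mul]
          linarith

theorem zmod_two : ∀ i : ZMod (2 * 1), i = 0 ∨ i = 1 := by decide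

/-- injective loops of length two -/
theorem loops_two :
    0 < Nat.card {f : ZMod (2 * 1) → ℤ × ℤ // f 0 = 0 ∧ Function.Injective f ∧
      ∀ i : ZMod (2 * 1), |(f (i+1)).1 - (f i).1| + |(f (i+1)).2 - (f i).2| = 1} := by
  have hfin : Finite {f : ZMod (2 * 1) → ℤ × ℤ // f 0 = 0 ∧ Function.Injective f ∧
      ∀ i : ZMod (2 * 1), |(f (i+1)).1 - (f i).1| + |(f (i+1)).2 - (f i).2| = 1} := by
    have hS : (Set.Icc (-1 : ℤ) 1 ×ˢ Set.Icc (-1 : ℤ) 1).Finite :=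
      (Set.finite_Icc _ _).prod (Set.finite_Icc _ _)
    have := hS.to_subtype
    refine Finite.of_injective (β := (Set.Icc (-1 : ℤ) 1 ×ˢ Set.Icc (-1 : ℤ) 1 : Set (ℤ × ℤ)))
      (fun f => ⟨f.1 1, ?_⟩) ?_
    · obtain ⟨h0, -, h2⟩ := f.2
      have h3 := h2 0
      rw [h0, zero_add] at h3
      simp only [Prod.fst_zero, Prod.snd_zero, sub_zero] at h3
      have a1 := abs_nonneg (f.1 1).1
      have a2 := abs_nonneg (f.1 1).2
      have b1 : |(f.1 1).1| ≤ 1 := by linarith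
      have b2 : |(f.1 1).2| ≤ 1 := by linarith
      rw [abs_le] at b1 b2
      exact ⟨⟨b1.1, b1.2⟩, ⟨b2.1, b2.2⟩⟩
    · intro f g hfg
      have h1 : f.1 1 = g.1 1 := congrArg Subtype.val hfg
      apply Subtype.ext
      funext i
      have hi := zmod_two i
      rcases hi with rfl | rfl
      · rw [f.2.1, g.2.1]
      · exact h1
  have hne : Nonempty {f : ZMod (2 * 1) → ℤ × ℤ // f 0 = 0 ∧ Function.Injective f ∧
      ∀ i : ZMod (2 * 1), |(f (i+1)).1 - (f i).1| + |(f (i+1)).2 - (f i).2| = 1} := by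
    refine ⟨⟨fun i => if i = 0 then 0 else (1, 0), ?_, ?_, ?_⟩⟩
    · simp
    · intro i j hij
      have hi := zmod_two i
      have hj := zmod_two j
      have h10 : (1 : ZMod (2 * 1)) ≠ 0 := by decide
      rcases hi with rfl | rfl <;> rcases hj with rfl | rfl <;> simp [h10] at hij ⊢
      exact absurd (congrArg Prod.fst hij) (by norm_num)
    · intro i
      have hi := zmod_two i
      have h10 : (1 : ZMod (2 * 1)) ≠ 0 := by decide
      have h11 : (1 : ZMod (2 * 1)) + 1 = 0 := by decide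
      rcases hi with rfl | rfl
      · simp [h10]
      · simp [h10, h11]
  exact Nat.card_pos

end Pool.Agent.H16TT
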