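import Pool.Agent.H16TT.AppStm
import Pool.Agent.H16TT.AppLem
import Pool.Agent.TH546.PC.Point

/-!
# The application part: polygons on the square lattice
-/

set_option autoImplicit false

open Filter Topology

namespace Pool.Agent.H16TT

open Pool.Agent.Results.MP_376faf_co.AllOrders

theorem t_LOG : S_LOG := by
  intro τ κ _ hτ
  refine logsym_of (fun r hr => ?_) hτ
  obtain ⟨C, _, h⟩ := Pool.Agent.N929.EZ.log_nat r hr
  refine ⟨|κ| * C, fun n hn => ?_⟩
  have e : ∑ i ∈ Finset.range (r + 1), (-1 : ℝ) ^ i * (r.choose i : ℝ) *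
      (κ * Real.log ((n + i : ℕ) : ℝ)) =
      κ * ∑ i ∈ Finset.range (r + 1), (-1 : ℝ) ^ i * (r.choose i : ℝ) * Real.log ((n : ℝ) + i) := by
    rw [Finset.mul_sum]
    refine Finset.sum_congr rfl fun i _ => ?_
    push_cast
    ring
  rw [e, abs_mul, mul_assoc]
  exact mul_le_mul_of_nonneg_left (h n hn) (abs_nonneg κ)

theorem p_pos_one : ∀ n, 1 ≤ n → 0 < p n := by
  intro n hn
  rcases Nat.lt_or_ge n 2 with h2 | h2
  · obtain rfl : n = 1 := by omega
    unfold p
    have h := loops_two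
    have h' : (0 : ℝ) < ((Nat.card {f : ZMod (2 * 1) → ℤ × ℤ // f 0 = 0 ∧ Function.Injective f ∧
      ∀ i : ZMod (2 * 1), |(f (i+1)).1 - (f i).1| + |(f (i+1)).2 - (f i).2| = 1} : ℕ) : ℝ) := by
      exact_mod_cast h
    positivity
  · rw [p_eq]
    exact Pool.Agent.H739K.PP_pos h2

theorem t_POLY : S_POLY := by
  obtain ⟨μ, hμ, hlim, h⟩ := Pool.Agent.Results.MP_376faf_co.AllOrders.result
  have hmu : μ = H981.mu := by
    have h1 := H981.tendsto_root
    simp only [c_eq] at hlim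
    exact tendsto_nhds_unique hlim h1
  refine ⟨μ, hμ, hlim, p_pos_one, ?_, fun τ _ hτ => logsym_of h hτ⟩
  obtain ⟨K, hK, hp⟩ := Pool.Agent.TH546.PC.point
  refine ⟨K + p 1 / μ ^ (2 * 1), fun n hn => ?_⟩
  have h1 := p_pos_one 1 le_rfl
  rcases Nat.lt_or_ge n 2 with h2 | h2
  · obtain rfl : n = 1 := by omega
    linarith
  · have h3 := hp n h2
    unfold Pool.Agent.W870.Pg.Fp at h3
    rw [← p_eq, ← hmu] at h3
    refine h3.trans ?_
    have hn1 : (1 : ℝ) ≤ n := by exact_mod_cast hn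
    have h4 : K / n ≤ K := div_le_self hK hn1
    have h5 : 0 < p 1 / μ ^ (2 * 1) := by positivity
    linarith

end Pool.Agent.H16TT
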