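import Pool.Agent.H16TT.Symb
import Pool.Agent.Results.MP_376faf_co.AllOrders

/-!
# Statements of the application part (for helper61)
-/

set_option autoImplicit false

open Filter Topology

namespace Pool.Agent.H16TT

open Pool.Agent.Results.MP_376faf_co.AllOrders

/-- polygons: `p` and `c` are those of the starting file `MP_376faf_co/AllOrders`. Use its `result`
(for `n = 1` enlarge the constants), `log n / √n ≤ C n ^ (-τ)`, the alternating sum
`∑ (-1)^i binom(r,i) f (n+i) = (-1)^r (D^[r] f) n`, and `H981` (`PP`, `mu`) for positivity and the upper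
bound `p n ≤ C μ ^ (2 n)` (starting file `PolygonsInverseLength` or older). -/
def S_POLY : Prop := ∃ μ : ℝ, 0 < μ ∧
  Tendsto (fun n : ℕ => (c n : ℝ) ^ ((1:ℝ) / (n : ℝ))) atTop (𝓝 μ) ∧
  (∀ n, 1 ≤ n → 0 < p n) ∧ (∃ C : ℝ, ∀ n, 1 ≤ n → p n / μ ^ (2 * n) ≤ C) ∧
  ∀ τ : ℝ, 0 < τ → τ < 1 / 2 →
    LogSym (fun n => (n : ℝ) ^ (-τ)) (fun n => Real.log (p n / μ ^ (2 * n)))

/-- logarithm: from `Pool.Agent.N929.EZ.log_nat`. -/
def S_LOG : Prop := ∀ τ κ : ℝ, 0 < τ → τ < 1 / 2 →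
  LogSym (fun n => (n : ℝ) ^ (-τ)) (fun n => κ * Real.log n)

end Pool.Agent.H16TT
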