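import Pool.Agent.H16TT.Smooth

/-!
# The Fourier representation, and bounds for the multiplier
-/

set_option autoImplicit false

open Finset MeasureTheory

namespace Pool.Agent.H16TT

/-- the generating function -/
noncomputable def gf (g : ℕ → ℝ) (s : ℂ) : ℂ := ∑' n : ℕ, (g n : ℂ) * Complex.exp (-(n * s))

/-- the point `1 / N + i θ` -/
noncomputable def pt (N : ℕ) (θ : ℝ) : ℂ := (1 / (N : ℝ) : ℝ) + θ * Complex.I

noncomputable def zet (N : ℕ) (θ : ℝ) : ℂ := Complex.exp (pt N θ)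

theorem pt_cont (N : ℕ) : Continuous (pt N) := by
  unfold pt
  exact continuous_const.add ((Complex.continuous_ofReal).mul continuous_const)

theorem zet_cont (N : ℕ) : Continuous (zet N) := Complex.continuous_exp.comp (pt_cont N)

theorem pt_re (N : ℕ) (θ : ℝ) : (pt N θ).re = 1 / (N : ℝ) := by
  simp [pt]

theorem pt_im (N : ℕ) (θ : ℝ) : (pt N θ).im = θ := by
  simp [pt]

theorem norm_zet (N : ℕ) (θ : ℝ) : ‖zet N θ‖ = Real.exp (1 / (N : ℝ)) := by
  unfold zet
  rw [Complex.norm_exp, pt_re]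

theorem norm_term (g : ℕ → ℝ) (N n : ℕ) (θ : ℝ) :
    ‖(g n : ℂ) * Complex.exp (-(n * pt N θ))‖ = |g n| * Real.exp (-(n / (N : ℝ))) := by
  rw [norm_mul, Complex.norm_exp, Complex.norm_real, Real.norm_eq_abs]
  congr 2
  rw [Complex.neg_re, Complex.mul_re, pt_re]
  simp
  ring

theorem int_exp (k : ℤ) : (∫ θ in (-Real.pi)..Real.pi, Complex.exp ((k : ℂ) * (θ * Complex.I))) =
    if k = 0 then 2 * Real.pi else 0 := by
  split_ifs with h
  · subst h
    simp
    norm_cast
    push_cast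
    ring
  · have hk : (k : ℂ) * Complex.I ≠ 0 := mul_ne_zero (by exact_mod_cast h) Complex.I_ne_zero
    have e : ∀ θ : ℝ, Complex.exp ((k : ℂ) * (θ * Complex.I)) =
        Complex.exp (((k : ℂ) * Complex.I) * θ) := by
      intro θ
      congr 1
      ring
    simp only [e]
    rw [integral_exp_mul_complex hk]
    have e1 : Complex.exp (((k : ℂ) * Complex.I) * (Real.pi : ℝ)) =
        Complex.exp (((k : ℂ) * Complex.I) * (-Real.pi : ℝ)) := by
      rw [Complex.exp_eq_exp_iff_exists_int]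
      refine ⟨k, ?_⟩
      push_cast
      ring
    rw [e1, sub_self, zero_div]
    simp

/-- the representation of a sequence by its generating function -/
theorem rep_gf (g : ℕ → ℝ) (N : ℕ) (hsum : Summable fun n => |g n| * Real.exp (-(n / (N : ℝ)))) :
    Rep (zet N) (fun θ => gf g (pt N θ) / (2 * Real.pi)) g := by
  have hcont : Continuous fun θ => gf g (pt N θ) := by
    unfold gf
    refine continuous_tsum (fun n => ?_) hsum (fun n θ => (norm_term g N n θ).le)
    exact continuous_const.mul (Complex.continuous_exp.comp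
      (continuous_const.mul (pt_cont N)).neg)
  refine ⟨hcont.div_const _, fun m => ?_⟩
  have hpi : (2 * Real.pi : ℂ) ≠ 0 := by
    have := Real.pi_ne_zero
    exact_mod_cast mul_ne_zero two_ne_zero this
  -- the terms
  set t : ℕ → ℝ → ℂ := fun n θ => (g n : ℂ) * Complex.exp (-(n * pt N θ)) / (2 * Real.pi) *
    zet N θ ^ m with ht
  have hbd : ∀ n θ, ‖t n θ‖ = |g n| * Real.exp (-(n / (N : ℝ))) / (2 * Real.pi) *
      Real.exp (1 / (N : ℝ)) ^ m := by
    intro n θ
    simp only [ht]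
    rw [norm_mul, norm_div, norm_term, norm_pow, norm_zet]
    congr 2
    rw [norm_mul, Complex.norm_real, Real.norm_eq_abs, abs_of_pos Real.pi_pos]
    simp
  have hs2 : Summable fun n => |g n| * Real.exp (-(n / (N : ℝ))) / (2 * Real.pi) *
      Real.exp (1 / (N : ℝ)) ^ m := (hsum.div_const _).mul_right _
  have h1 : HasSum (fun n => ∫ θ in (-Real.pi)..Real.pi, t n θ)
      (∫ θ in (-Real.pi)..Real.pi, ∑' n, t n θ) := by
    refine intervalIntegral.hasSum_integral_of_dominated_convergence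
      (fun n _ => |g n| * Real.exp (-(n / (N : ℝ))) / (2 * Real.pi) *
        Real.exp (1 / (N : ℝ)) ^ m) (fun n => ?_) (fun n => ?_) ?_ ?_ ?_
    · refine Continuous.aestronglyMeasurable ?_
      exact ((continuous_const.mul (Complex.continuous_exp.comp
        (continuous_const.mul (pt_cont N)).neg)).div_const _).mul ((zet_cont N).pow m)
    · exact Filter.Eventually.of_forall fun θ _ => (hbd n θ).le
    · exact Filter.Eventually.of_forall fun θ _ => hs2
    · exact intervalIntegrable_const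
    · refine Filter.Eventually.of_forall fun θ _ => ?_
      refine Summable.hasSum ?_
      refine Summable.of_norm ?_
      simpa only [hbd] using hs2
  have h2 : (∫ θ in (-Real.pi)..Real.pi, ∑' n, t n θ) =
      ∫ θ in (-Real.pi)..Real.pi, gf g (pt N θ) / (2 * Real.pi) * zet N θ ^ m := by
    congr 1
    funext θ
    simp only [ht]
    rw [tsum_mul_right, tsum_div_const]
    rfl
  rw [← h2]
  have h3 : ∀ n, (∫ θ in (-Real.pi)..Real.pi, t n θ) = if n = m then (g m : ℂ) else 0 := by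
    intro n
    have e : ∀ θ : ℝ, t n θ = ((g n : ℂ) / (2 * Real.pi) *
        Complex.exp (((m : ℤ) - (n : ℤ) : ℤ) * ((1 / (N : ℝ) : ℝ) : ℂ))) *
        Complex.exp ((((m : ℤ) - (n : ℤ) : ℤ) : ℂ) * (θ * Complex.I)) := by
      intro θ
      simp only [ht, zet, pt]
      rw [← Complex.exp_nat_mul, mul_assoc ((g n : ℂ) / (2 * Real.pi)), ← Complex.exp_add,
        div_mul_eq_mul_div, div_mul_eq_mul_div, mul_assoc (g n : ℂ), ← Complex.exp_add]
      congr 3
      push_cast
      ring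
    simp only [e]
    rw [intervalIntegral.integral_const_mul, int_exp]
    by_cases hnm : n = m
    · subst hnm
      simp only [sub_self, if_true]
      simp only [Int.cast_zero, zero_mul, Complex.exp_zero, mul_one]
      push_cast
      rw [div_mul_cancel₀ _ hpi]
    · rw [if_neg hnm, if_neg (by omega), Complex.ofReal_zero, mul_zero]
  simp only [h3] at h1
  have h4 : HasSum (fun n => if n = m then (g m : ℂ) else 0) (g m : ℂ) := hasSum_ite_eq m _
  exact h4.unique h1

theorem norm_zet_sub_one {N : ℕ} {θ : ℝ} (hθ : |θ| ≤ Real.pi) :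
    2 * |θ| / Real.pi ≤ ‖zet N θ - 1‖ := by
  have hpi := Real.pi_pos
  set r := Real.exp (1 / (N : ℝ)) with hr
  have hr1 : 1 ≤ r := Real.one_le_exp (by positivity)
  have e1 : (zet N θ).re = r * Real.cos θ := by
    unfold zet
    rw [Complex.exp_re, pt_re, pt_im]
  have e2 : (zet N θ).im = r * Real.sin θ := by
    unfold zet
    rw [Complex.exp_im, pt_re, pt_im]
  have h1 : ‖zet N θ - 1‖ ^ 2 = (r - 1) ^ 2 + 2 * r * (1 - Real.cos θ) := by
    rw [← Complex.normSq_eq_norm_sq, Complex.normSq_apply]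
    simp only [Complex.sub_re, Complex.sub_im, Complex.one_re, Complex.one_im, e1, e2]
    have := Real.sin_sq_add_cos_sq θ
    nlinarith
  have h2 : Real.cos θ ≤ 1 - 2 / Real.pi ^ 2 * θ ^ 2 := Real.cos_le_one_sub_mul_cos_sq hθ
  have h3 : (2 * |θ| / Real.pi) ^ 2 ≤ ‖zet N θ - 1‖ ^ 2 := by
    rw [h1]
    have h4 : (2 * |θ| / Real.pi) ^ 2 = 2 * (2 / Real.pi ^ 2 * θ ^ 2) := by
      rw [div_pow, mul_pow, sq_abs]
      ring
    rw [h4]
    have h5 : 2 / Real.pi ^ 2 * θ ^ 2 ≤ 1 - Real.cos θ := by linarith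
    have h6 : 0 ≤ 2 / Real.pi ^ 2 * θ ^ 2 := by positivity
    have h7 : 0 ≤ 1 - Real.cos θ := by linarith
    nlinarith [sq_nonneg (r - 1)]
  exact le_of_sq_le_sq' h3 (norm_nonneg _)
where
  le_of_sq_le_sq' {a b : ℝ} (h : a ^ 2 ≤ b ^ 2) (hb : 0 ≤ b) : a ≤ b := abs_le_of_sq_le_sq' h hb |>.2

theorem norm_zet_pow {N j : ℕ} (hN : 1 ≤ N) (hj : j ≤ N) (θ : ℝ) : ‖zet N θ ^ j‖ ≤ Real.exp 1 := by
  rw [norm_pow, norm_zet, ← Real.exp_nat_mul]
  apply Real.exp_le_exp.2
  have hN0 : (0 : ℝ) < N := by exact_mod_cast hN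
  rw [mul_one_div, div_le_one hN0]
  exact_mod_cast hj

theorem norm_sig {N w : ℕ} (hw : 1 ≤ w) (hwN : w ≤ N) (θ : ℝ) :
    ‖sig w (zet N θ)‖ ≤ Real.exp 1 := by
  have hw0 : (0 : ℝ) < w := by exact_mod_cast hw
  unfold sig
  rw [norm_div, Complex.norm_natCast, div_le_iff₀ hw0]
  refine (norm_sum_le _ _).trans ?_
  calc ∑ j ∈ range w, ‖zet N θ ^ j‖ ≤ ∑ _j ∈ range w, Real.exp 1 := by
        refine sum_le_sum fun j hj => norm_zet_pow (by omega) ?_ θ
        have := mem_range.1 hj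
        omega
    _ = Real.exp 1 * w := by rw [sum_const, card_range, nsmul_eq_mul]; ring

theorem norm_sig_far {N w : ℕ} (hw : 1 ≤ w) (hwN : w ≤ N) {θ : ℝ} (hθ : |θ| ≤ Real.pi)
    (h0 : θ ≠ 0) : ‖sig w (zet N θ)‖ ≤ 8 / (w * |θ|) := by
  have hw0 : (0 : ℝ) < w := by exact_mod_cast hw
  have hpi := Real.pi_pos
  have hθ0 : 0 < |θ| := abs_pos.2 h0
  have h1 := norm_zet_sub_one (N := N) hθ
  have h2 : sig w (zet N θ) * (zet N θ - 1) = (zet N θ ^ w - 1) / w := by
    unfold sig
    rw [div_mul_eq_mul_div, geom_sum_mul]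
  have h3 : ‖sig w (zet N θ)‖ * ‖zet N θ - 1‖ ≤ (Real.exp 1 + 1) / w := by
    rw [← norm_mul, h2, norm_div, Complex.norm_natCast]
    refine div_le_div_of_nonneg_right ?_ hw0.le
    refine (norm_sub_le _ _).trans ?_
    rw [norm_one]
    have := norm_zet_pow (N := N) (j := w) (by omega) hwN θ
    linarith
  have h4 : ‖sig w (zet N θ)‖ * (2 * |θ| / Real.pi) ≤ (Real.exp 1 + 1) / w :=
    (mul_le_mul_of_nonneg_left h1 (norm_nonneg _)).trans h3
  have h5 : Real.exp 1 < 2.7182818286 := Real.exp_one_lt_d9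
  have h6 : Real.pi < 3.15 := Real.pi_lt_d2
  rw [le_div_iff₀ (by positivity)]
  rw [le_div_iff₀ hw0] at h4
  have h7 : ‖sig w (zet N θ)‖ * (w * |θ|) =
      (‖sig w (zet N θ)‖ * (2 * |θ| / Real.pi) * w) * (Real.pi / 2) := by
    field_simp
  rw [h7]
  calc (‖sig w (zet N θ)‖ * (2 * |θ| / Real.pi) * w) * (Real.pi / 2)
      ≤ (Real.exp 1 + 1) * (Real.pi / 2) := mul_le_mul_of_nonneg_right h4 (by positivity)
    _ ≤ 8 := by nlinarith

/-- bound for the multiplier by a power of the multiplier of the averages -/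
theorem norm_mult {w q R : ℕ} {z : ℂ} (h : ‖sig w z‖ ≤ Real.exp 1) :
    ‖mult w q R z‖ ≤ R * (1 + Real.exp 1 ^ q) ^ R * ‖sig w z‖ ^ q := by
  have e1 : 0 < Real.exp 1 := Real.exp_pos 1
  set y := sig w z ^ q with hy
  have hy1 : ‖1 - y‖ ≤ 1 + Real.exp 1 ^ q := by
    refine (norm_sub_le _ _).trans ?_
    rw [norm_one, hy, norm_pow]
    have := pow_le_pow_left₀ (norm_nonneg _) h q
    linarith
  have h1 : mult w q R z = y * ∑ j ∈ range R, (1 - y) ^ j := by
    unfold mult
    rw [← hy]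
    have := mul_neg_geom_sum (1 - y) R
    rw [← this]
    ring
  rw [h1, norm_mul, mul_comm, hy, norm_pow]
  refine mul_le_mul_of_nonneg_right ?_ (pow_nonneg (norm_nonneg _) _)
  refine (norm_sum_le _ _).trans ?_
  calc ∑ j ∈ range R, ‖(1 - y) ^ j‖ ≤ ∑ _j ∈ range R, (1 + Real.exp 1 ^ q) ^ R := by
        refine sum_le_sum fun j hj => ?_
        rw [norm_pow]
        have h2 : (1 : ℝ) ≤ 1 + Real.exp 1 ^ q := by
          have := pow_pos e1 q
          linarith
        refine (pow_le_pow_left₀ (norm_nonneg _) hy1 j).trans ?_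
        exact pow_le_pow_right₀ h2 (mem_range.1 hj).le
    _ = R * (1 + Real.exp 1 ^ q) ^ R := by rw [sum_const, card_range, nsmul_eq_mul]

end Pool.Agent.H16TT
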