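import Pool.Agent.H16TT.Four

/-!
# Localization of the coefficients and the Tauberian theorem
-/

set_option autoImplicit false

open Finset MeasureTheory

namespace Pool.Agent.H16TT

/-- polynomially bounded, and every difference gains `n ^ (-τ)` -/
def Slow (A : ℕ) (τ : ℝ) (g : ℕ → ℝ) : Prop :=
  (∃ K : ℝ, 0 ≤ K ∧ ∀ n : ℕ, |g n| ≤ K * ((n : ℝ) + 1) ^ A) ∧
  ∀ r : ℕ, ∃ K : ℝ, 0 ≤ K ∧ ∀ n : ℕ, 1 ≤ n →
    |(D^[r] g) n| ≤ K * (n : ℝ) ^ A * ((n : ℝ) ^ (-τ)) ^ r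

theorem geo_bd {y : ℝ} (hy : 0 < y) : (1 - Real.exp (-y))⁻¹ ≤ 1 + 1 / y := by
  have h1 : 1 + y ≤ Real.exp y := by
    have := Real.add_one_le_exp y
    linarith
  have h2 : Real.exp (-y) ≤ 1 / (1 + y) := by
    rw [Real.exp_neg, one_div]
    exact inv_anti₀ (by linarith) h1
  have h3 : y / (1 + y) ≤ 1 - Real.exp (-y) := by
    have : 1 - 1 / (1 + y) = y / (1 + y) := by field_simp; ring
    linarith
  have h4 : (0 : ℝ) < y / (1 + y) := by positivity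
  calc (1 - Real.exp (-y))⁻¹ ≤ (y / (1 + y))⁻¹ := inv_anti₀ h4 h3
    _ = 1 + 1 / y := by field_simp; ring

theorem sum_bd (A : ℕ) : ∃ C : ℝ, 0 ≤ C ∧ ∀ N : ℕ, 1 ≤ N →
    Summable (fun n : ℕ => ((n : ℝ) + 1) ^ A * Real.exp (-(n / (N : ℝ)))) ∧
    ∑' n : ℕ, ((n : ℝ) + 1) ^ A * Real.exp (-(n / (N : ℝ))) ≤ C * (N : ℝ) ^ (A + 1) := by
  refine ⟨2 ^ A * A.factorial * Real.exp 1 * 3, by positivity, fun N hN => ?_⟩
  have hN0 : (1 : ℝ) ≤ N := by exact_mod_cast hN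
  have hNp : (0 : ℝ) < N := by linarith
  set y : ℝ := 1 / (2 * N) with hy
  have hy0 : 0 < y := by positivity
  have hr : Real.exp (-y) < 1 := by
    rw [Real.exp_lt_one_iff]
    linarith
  have hgeo : HasSum (fun n : ℕ => (2 * (N : ℝ)) ^ A * A.factorial * Real.exp 1 *
      Real.exp (-y) ^ n) ((2 * (N : ℝ)) ^ A * A.factorial * Real.exp 1 *
        (1 - Real.exp (-y))⁻¹) :=
    (hasSum_geometric_of_lt_one (Real.exp_pos _).le hr).mul_left _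
  have hle : ∀ n : ℕ, ((n : ℝ) + 1) ^ A * Real.exp (-(n / (N : ℝ))) ≤
      (2 * (N : ℝ)) ^ A * A.factorial * Real.exp 1 * Real.exp (-y) ^ n := by
    intro n
    have h1 : (((n : ℝ) + 1) * y) ^ A / A.factorial ≤ Real.exp (((n : ℝ) + 1) * y) :=
      Real.pow_div_factorial_le_exp _ (by positivity) A
    rw [div_le_iff₀ (by positivity)] at h1
    have h2 : ((n : ℝ) + 1) ^ A = (2 * (N : ℝ)) ^ A * (((n : ℝ) + 1) * y) ^ A := by
      rw [← mul_pow, hy]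
      congr 1
      field_simp
    have h3 : Real.exp (((n : ℝ) + 1) * y) * Real.exp (-(n / (N : ℝ))) ≤
        Real.exp 1 * Real.exp (-y) ^ n := by
      rw [← Real.exp_nat_mul, ← Real.exp_add, ← Real.exp_add]
      apply Real.exp_le_exp.2
      have e1 : (n : ℝ) / N = 2 * (n * y) := by rw [hy]; field_simp
      have e2 : y ≤ 1 := by
        rw [hy, div_le_one (by positivity)]
        linarith
      rw [e1]
      nlinarith
    rw [h2]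
    calc (2 * (N : ℝ)) ^ A * (((n : ℝ) + 1) * y) ^ A * Real.exp (-(n / (N : ℝ)))
        ≤ (2 * (N : ℝ)) ^ A * (Real.exp (((n : ℝ) + 1) * y) * A.factorial) *
            Real.exp (-(n / (N : ℝ))) := by gcongr
      _ = (2 * (N : ℝ)) ^ A * A.factorial *
            (Real.exp (((n : ℝ) + 1) * y) * Real.exp (-(n / (N : ℝ)))) := by ring
      _ ≤ (2 * (N : ℝ)) ^ A * A.factorial * (Real.exp 1 * Real.exp (-y) ^ n) := by gcongr
      _ = _ := by ring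
  have hsum : Summable (fun n : ℕ => ((n : ℝ) + 1) ^ A * Real.exp (-(n / (N : ℝ)))) :=
    Summable.of_nonneg_of_le (fun n => by positivity) hle hgeo.summable
  refine ⟨hsum, ?_⟩
  calc ∑' n : ℕ, ((n : ℝ) + 1) ^ A * Real.exp (-(n / (N : ℝ)))
      ≤ (2 * (N : ℝ)) ^ A * A.factorial * Real.exp 1 * (1 - Real.exp (-y))⁻¹ := by
        rw [← hgeo.tsum_eq]
        exact hsum.tsum_le_tsum hle hgeo.summable
    _ ≤ (2 * (N : ℝ)) ^ A * A.factorial * Real.exp 1 * (3 * N) := by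
        have h1 := geo_bd hy0
        have h2 : 1 + 1 / y ≤ 3 * N := by
          rw [hy]
          field_simp
          linarith
        have h3 := h1.trans h2
        gcongr
    _ = _ := by rw [mul_pow]; ring

theorem gf_bd {A : ℕ} {g : ℕ → ℝ} {K : ℝ} (hK : 0 ≤ K) (hg : ∀ n : ℕ, |g n| ≤ K * ((n : ℝ) + 1) ^ A) :
    ∃ C : ℝ, 0 ≤ C ∧ ∀ N : ℕ, 1 ≤ N →
      (Summable fun n => |g n| * Real.exp (-(n / (N : ℝ)))) ∧
      ∀ θ, ‖gf g (pt N θ)‖ ≤ C * (N : ℝ) ^ (A + 1) := by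
  obtain ⟨C, hC, h⟩ := sum_bd A
  refine ⟨K * C, mul_nonneg hK hC, fun N hN => ?_⟩
  obtain ⟨h1, h2⟩ := h N hN
  have h3 : Summable fun n : ℕ => K * (((n : ℝ) + 1) ^ A * Real.exp (-(n / (N : ℝ)))) :=
    h1.mul_left K
  have h4 : ∀ n : ℕ, |g n| * Real.exp (-(n / (N : ℝ))) ≤
      K * (((n : ℝ) + 1) ^ A * Real.exp (-(n / (N : ℝ)))) := by
    intro n
    rw [← mul_assoc]
    exact mul_le_mul_of_nonneg_right (hg n) (Real.exp_pos _).le
  have h5 : Summable fun n => |g n| * Real.exp (-(n / (N : ℝ))) :=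
    Summable.of_nonneg_of_le (fun n => by positivity) h4 h3
  refine ⟨h5, fun θ => ?_⟩
  unfold gf
  have h6 : Summable fun n : ℕ => ‖(g n : ℂ) * Complex.exp (-(n * pt N θ))‖ := by
    simpa only [norm_term] using h5
  calc ‖∑' n : ℕ, (g n : ℂ) * Complex.exp (-(n * pt N θ))‖
      ≤ ∑' n : ℕ, ‖(g n : ℂ) * Complex.exp (-(n * pt N θ))‖ := norm_tsum_le_tsum_norm h6
    _ = ∑' n, |g n| * Real.exp (-(n / (N : ℝ))) := by simp only [norm_term]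
    _ ≤ ∑' n : ℕ, K * (((n : ℝ) + 1) ^ A * Real.exp (-(n / (N : ℝ)))) := h5.tsum_le_tsum h4 h3
    _ = K * ∑' n : ℕ, (((n : ℝ) + 1) ^ A * Real.exp (-(n / (N : ℝ)))) := tsum_mul_left
    _ ≤ K * (C * (N : ℝ) ^ (A + 1)) := mul_le_mul_of_nonneg_left h2 hK
    _ = _ := by ring

/-- the window -/
noncomputable def wN (γ : ℝ) (N : ℕ) : ℕ := ⌊(N : ℝ) ^ γ⌋₊

theorem wN_facts {γ : ℝ} (h0 : 0 < γ) (h1 : γ < 1) {N : ℕ} (hN : 1 ≤ N) :
    1 ≤ wN γ N ∧ wN γ N ≤ N ∧ (wN γ N : ℝ) ≤ (N : ℝ) ^ γ ∧ (N : ℝ) ^ γ ≤ 2 * wN γ N := by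
  have hN1 : (1 : ℝ) ≤ N := by exact_mod_cast hN
  have h2 : (1 : ℝ) ≤ (N : ℝ) ^ γ := Real.one_le_rpow hN1 h0.le
  have h3 : (wN γ N : ℝ) ≤ (N : ℝ) ^ γ := Nat.floor_le (by positivity)
  have h4 : 1 ≤ wN γ N := Nat.one_le_floor_iff _ |>.2 h2
  refine ⟨h4, ?_, h3, ?_⟩
  · have h5 : (N : ℝ) ^ γ ≤ (N : ℝ) ^ (1 : ℝ) := Real.rpow_le_rpow_of_exponent_le hN1 h1.le
    rw [Real.rpow_one] at h5
    exact_mod_cast h3.trans h5
  · have h5 : (N : ℝ) ^ γ < wN γ N + 1 := Nat.lt_floor_add_one _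
    have h6 : (1 : ℝ) ≤ wN γ N := by exact_mod_cast h4
    linarith

/-- the kernel -/
noncomputable def ker (γ : ℝ) (Q N : ℕ) (θ : ℝ) : ℂ :=
  mult (wN γ N) Q Q (zet N θ) * zet N θ ^ N / (2 * Real.pi)

theorem ker_cont (γ : ℝ) (Q N : ℕ) : Continuous (ker γ Q N) := by
  unfold ker mult
  exact (((continuous_const.sub ((continuous_const.sub
    ((sig_cont _ (zet_cont N)).pow Q)).pow Q))).mul ((zet_cont N).pow N)).div_const _

theorem ker_bd (Q : ℕ) : ∃ C : ℝ, 0 ≤ C ∧ ∀ γ : ℝ, 0 < γ → γ < 1 → ∀ N : ℕ, 1 ≤ N → ∀ θ : ℝ,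
    ‖ker γ Q N θ‖ ≤ C ∧
      (|θ| ≤ Real.pi → θ ≠ 0 → ‖ker γ Q N θ‖ ≤ C * ((N : ℝ) ^ γ * |θ|)⁻¹ ^ Q) := by
  have e0 : 0 < Real.exp 1 := Real.exp_pos 1
  refine ⟨(Q * (1 + Real.exp 1 ^ Q) ^ Q) * (Real.exp 1 ^ Q + 16 ^ Q) * Real.exp 1, by positivity,
    fun γ h0 h1 N hN θ => ?_⟩
  obtain ⟨w1, w2, w3, w4⟩ := wN_facts h0 h1 hN
  have hs := norm_sig w1 w2 θ
  have hm := norm_mult (q := Q) (R := Q) hs
  have hz := norm_zet_pow hN le_rfl θ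
  have h2pi : (1 : ℝ) ≤ 2 * Real.pi := by
    have := Real.pi_gt_three
    linarith
  have hk : ‖ker γ Q N θ‖ ≤ ‖mult (wN γ N) Q Q (zet N θ)‖ * Real.exp 1 := by
    unfold ker
    rw [norm_div, norm_mul]
    have e : ‖(2 * Real.pi : ℂ)‖ = 2 * Real.pi := by
      rw [norm_mul, Complex.norm_real, Real.norm_eq_abs, abs_of_pos Real.pi_pos]
      simp
    rw [e]
    refine (div_le_self (by positivity) h2pi).trans ?_
    exact mul_le_mul_of_nonneg_left hz (norm_nonneg _)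
  set P : ℝ := Q * (1 + Real.exp 1 ^ Q) ^ Q with hP
  have hP0 : 0 ≤ P := by positivity
  constructor
  · refine hk.trans (mul_le_mul_of_nonneg_right (hm.trans ?_) e0.le)
    refine mul_le_mul_of_nonneg_left ?_ hP0
    have h3 := pow_le_pow_left₀ (norm_nonneg _) hs Q
    have h4 : (0 : ℝ) ≤ 16 ^ Q := by positivity
    linarith
  · intro hθ hθ0
    have hθp : 0 < |θ| := abs_pos.2 hθ0
    have hw0 : (0 : ℝ) < wN γ N := by exact_mod_cast w1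
    have hNg : (0 : ℝ) < (N : ℝ) ^ γ := by
      have : (0 : ℝ) < N := by exact_mod_cast hN
      positivity
    have hf := norm_sig_far w1 w2 hθ hθ0
    have hf2 : ‖sig (wN γ N) (zet N θ)‖ ≤ 16 * ((N : ℝ) ^ γ * |θ|)⁻¹ := by
      refine hf.trans ?_
      rw [← div_eq_mul_inv, div_le_div_iff₀ (by positivity) (by positivity)]
      nlinarith
    have hf3 : ‖sig (wN γ N) (zet N θ)‖ ^ Q ≤ 16 ^ Q * ((N : ℝ) ^ γ * |θ|)⁻¹ ^ Q := by
      rw [← mul_pow]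
      exact pow_le_pow_left₀ (norm_nonneg _) hf2 Q
    refine hk.trans ?_
    have h5 : ‖mult (wN γ N) Q Q (zet N θ)‖ ≤ P * (Real.exp 1 ^ Q + 16 ^ Q) *
        ((N : ℝ) ^ γ * |θ|)⁻¹ ^ Q := by
      refine hm.trans ?_
      rw [mul_assoc P]
      refine mul_le_mul_of_nonneg_left (hf3.trans ?_) hP0
      refine mul_le_mul_of_nonneg_right ?_ (by positivity)
      have : (0 : ℝ) ≤ Real.exp 1 ^ Q := by positivity
      linarith
    have := mul_le_mul_of_nonneg_right h5 e0.le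
    linarith

/-- a power of `N` with a small exponent -/
theorem pow_small {A M Q : ℕ} {η : ℝ} (hQ : (A : ℝ) + 1 + M ≤ η * Q) {N : ℕ} (hN : 1 ≤ N) :
    (N : ℝ) ^ (A + 1) * ((N : ℝ) ^ (-η)) ^ Q ≤ (N : ℝ) ^ (-(M : ℝ)) := by
  have hN1 : (1 : ℝ) ≤ N := by exact_mod_cast hN
  have hN0 : (0 : ℝ) < N := by linarith
  rw [← Real.rpow_natCast, ← Real.rpow_natCast ((N : ℝ) ^ (-η)), ← Real.rpow_mul hN0.le,
    ← Real.rpow_add hN0]
  apply Real.rpow_le_rpow_of_exponent_le hN1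
  push_cast
  linarith

/-- **Localization.** -/
theorem localize {A M Q : ℕ} {τ γ α : ℝ} (hα : 0 < α) (hαγ : α < γ) (hγτ : γ < τ) (hτ : τ < 1)
    (hQ1 : (A : ℝ) + 1 + M ≤ (γ - α) * Q) (hQ2 : (A : ℝ) + 1 + M ≤ (τ - γ) * Q)
    {g : ℕ → ℝ} (hg : Slow A τ g) : ∃ C : ℝ, 0 ≤ C ∧ ∀ N : ℕ, 1 ≤ N →
      ‖(g N : ℂ) - ∫ θ in (-((N : ℝ) ^ (-α)))..((N : ℝ) ^ (-α)), gf g (pt N θ) * ker γ Q N θ‖ ≤
        C * (N : ℝ) ^ (-(M : ℝ)) := by
  obtain ⟨⟨K₀, hK₀, hg0⟩, hgr⟩ := hg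
  obtain ⟨K, hK, hgK⟩ := hgr Q
  obtain ⟨C₁, hC₁, h1⟩ := gf_bd hK₀ hg0
  obtain ⟨C₂, hC₂, h2⟩ := ker_bd Q
  have hγ0 : 0 < γ := by linarith
  have hγ1 : γ < 1 := by linarith
  refine ⟨(Q : ℝ) ^ Q * (K * (1 + Q * Q) ^ A) + 2 * (C₁ * C₂ * Real.pi), by positivity,
    fun N hN => ?_⟩
  have hN1 : (1 : ℝ) ≤ N := by exact_mod_cast hN
  have hN0 : (0 : ℝ) < N := by linarith
  obtain ⟨w1, w2, w3, w4⟩ := wN_facts hγ0 hγ1 hN
  obtain ⟨s1, s2⟩ := h1 N hN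
  set w := wN γ N with hw
  -- the representation
  have hrep := Rep.main (zet_cont N) w Q Q (rep_gf g N s1)
  obtain ⟨hc, hrep⟩ := hrep
  have hr := hrep N
  have hpi := Real.pi_gt_three
  have hd : (N : ℝ) ^ (-α) ≤ 1 := Real.rpow_le_one_of_one_le_of_nonpos hN1 (by linarith)
  have hd0 : 0 < (N : ℝ) ^ (-α) := Real.rpow_pos_of_pos hN0 _
  set d := (N : ℝ) ^ (-α) with hdd
  have hcont : Continuous fun θ => gf g (pt N θ) * ker γ Q N θ := by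
    have e : (fun θ => gf g (pt N θ) * ker γ Q N θ) = fun θ =>
        gf g (pt N θ) / (2 * Real.pi) * mult w Q Q (zet N θ) * zet N θ ^ N := by
      funext θ
      unfold ker
      ring
    rw [e]
    exact hc.mul ((zet_cont N).pow N)
  have hr2 : (g N : ℂ) - (((Z w Q)^[Q] g) N : ℝ) =
      ∫ θ in (-Real.pi)..Real.pi, gf g (pt N θ) * ker γ Q N θ := by
    have e : ((g N - ((Z w Q)^[Q] g) N : ℝ) : ℂ) = (g N : ℂ) - (((Z w Q)^[Q] g) N : ℝ) := by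
      push_cast; ring
    rw [← e, hr]
    congr 1
    funext θ
    unfold ker
    ring
  have hint : ∀ a b : ℝ, IntervalIntegrable (fun θ => gf g (pt N θ) * ker γ Q N θ) volume a b :=
    fun a b => hcont.intervalIntegrable a b
  have hsplit : (∫ θ in (-Real.pi)..Real.pi, gf g (pt N θ) * ker γ Q N θ) =
      (∫ θ in (-Real.pi)..(-d), gf g (pt N θ) * ker γ Q N θ) +
      (∫ θ in (-d)..d, gf g (pt N θ) * ker γ Q N θ) +
      (∫ θ in d..Real.pi, gf g (pt N θ) * ker γ Q N θ) := by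
    rw [intervalIntegral.integral_add_adjacent_intervals (hint _ _) (hint _ _),
      intervalIntegral.integral_add_adjacent_intervals (hint _ _) (hint _ _)]
  -- bound for the far part
  have hfar : ∀ θ : ℝ, d ≤ |θ| → |θ| ≤ Real.pi →
      ‖gf g (pt N θ) * ker γ Q N θ‖ ≤ C₁ * C₂ * (N : ℝ) ^ (-(M : ℝ)) := by
    intro θ h3 h4
    have h5 : θ ≠ 0 := by
      intro h
      rw [h, abs_zero] at h3
      linarith
    have h6 := ((h2 γ hγ0 hγ1 N hN θ).2 h4 h5)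
    rw [norm_mul]
    have h7 : ((N : ℝ) ^ γ * |θ|)⁻¹ ≤ (N : ℝ) ^ (-(γ - α)) := by
      have h8 : (N : ℝ) ^ (γ - α) ≤ (N : ℝ) ^ γ * |θ| := by
        have h9 : (N : ℝ) ^ (γ - α) = (N : ℝ) ^ γ * d := by
          rw [hdd, ← Real.rpow_add hN0]
          rfl
        rw [h9]
        exact mul_le_mul_of_nonneg_left h3 (by positivity)
      rw [Real.rpow_neg hN0.le]
      exact inv_anti₀ (by positivity) h8
    have h8 : ((N : ℝ) ^ γ * |θ|)⁻¹ ^ Q ≤ ((N : ℝ) ^ (-(γ - α))) ^ Q :=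
      pow_le_pow_left₀ (by positivity) h7 Q
    calc ‖gf g (pt N θ)‖ * ‖ker γ Q N θ‖
        ≤ (C₁ * (N : ℝ) ^ (A + 1)) * (C₂ * ((N : ℝ) ^ (-(γ - α))) ^ Q) := by
          refine mul_le_mul (s2 θ) (h6.trans ?_) (norm_nonneg _) (by positivity)
          exact mul_le_mul_of_nonneg_left h8 hC₂
      _ = C₁ * C₂ * ((N : ℝ) ^ (A + 1) * ((N : ℝ) ^ (-(γ - α))) ^ Q) := by ring
      _ ≤ C₁ * C₂ * (N : ℝ) ^ (-(M : ℝ)) :=
          mul_le_mul_of_nonneg_left (pow_small hQ1 hN) (by positivity)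
  have hf1 : ‖∫ θ in (-Real.pi)..(-d), gf g (pt N θ) * ker γ Q N θ‖ ≤
      C₁ * C₂ * (N : ℝ) ^ (-(M : ℝ)) * Real.pi := by
    refine (intervalIntegral.norm_integral_le_of_norm_le_const
      (C := C₁ * C₂ * (N : ℝ) ^ (-(M : ℝ))) fun θ hθ => ?_).trans ?_
    · rw [Set.uIoc_of_le (by linarith)] at hθ
      have : |θ| = -θ := abs_of_nonpos (by linarith [hθ.2])
      exact hfar θ (by rw [this]; linarith [hθ.2]) (by rw [this]; linarith [hθ.1])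
    · refine mul_le_mul_of_nonneg_left ?_ (by positivity)
      rw [abs_of_nonneg (by linarith)]
      linarith
  have hf2 : ‖∫ θ in d..Real.pi, gf g (pt N θ) * ker γ Q N θ‖ ≤
      C₁ * C₂ * (N : ℝ) ^ (-(M : ℝ)) * Real.pi := by
    refine (intervalIntegral.norm_integral_le_of_norm_le_const
      (C := C₁ * C₂ * (N : ℝ) ^ (-(M : ℝ))) fun θ hθ => ?_).trans ?_
    · rw [Set.uIoc_of_le (by linarith)] at hθ
      have : |θ| = θ := abs_of_nonneg (by linarith [hθ.1])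
      exact hfar θ (by rw [this]; linarith [hθ.1]) (by rw [this]; linarith [hθ.2])
    · refine mul_le_mul_of_nonneg_left ?_ (by positivity)
      rw [abs_of_nonneg (by linarith)]
      linarith
  -- the smoothing error
  have hB : Bd (D^[Q] g) N (0 + Q * (Q * w)) (K * (1 + Q * Q) ^ A * (N : ℝ) ^ A *
      ((N : ℝ) ^ (-τ)) ^ Q) := by
    intro m h3 h4
    have hm1 : 1 ≤ m := by omega
    have hm0 : (N : ℝ) ≤ m := by exact_mod_cast h3
    refine (hgK m hm1).trans ?_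
    have h5 : (m : ℝ) ≤ (1 + Q * Q) * N := by
      have h6 : m ≤ N + Q * (Q * N) := by
        have : Q * (Q * w) ≤ Q * (Q * N) := Nat.mul_le_mul_left _ (Nat.mul_le_mul_left _ w2)
        omega
      have h7 : (m : ℝ) ≤ ((N + Q * (Q * N) : ℕ) : ℝ) := by exact_mod_cast h6
      push_cast at h7
      linarith
    have h6 : (m : ℝ) ^ A ≤ (1 + Q * Q) ^ A * (N : ℝ) ^ A := by
      rw [← mul_pow]
      exact pow_le_pow_left₀ (by positivity) h5 A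
    have h7 : ((m : ℝ) ^ (-τ)) ^ Q ≤ ((N : ℝ) ^ (-τ)) ^ Q := by
      refine pow_le_pow_left₀ (by positivity) ?_ Q
      exact Real.rpow_le_rpow_of_nonpos hN0 hm0 (by linarith)
    calc K * (m : ℝ) ^ A * ((m : ℝ) ^ (-τ)) ^ Q
        ≤ K * ((1 + Q * Q) ^ A * (N : ℝ) ^ A) * ((N : ℝ) ^ (-τ)) ^ Q := by gcongr
      _ = _ := by ring
  have hZ := Zq_bd w1 (by positivity) Q Q hB N le_rfl (by omega)
  have hZ2 : |((Z w Q)^[Q] g) N| ≤ (Q : ℝ) ^ Q * (K * (1 + Q * Q) ^ A) * (N : ℝ) ^ (-(M : ℝ)) := by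
    refine hZ.trans ?_
    have h3 : ((Q : ℝ) * w) ^ Q ≤ (Q : ℝ) ^ Q * ((N : ℝ) ^ γ) ^ Q := by
      rw [← mul_pow]
      exact pow_le_pow_left₀ (by positivity) (mul_le_mul_of_nonneg_left w3 (by positivity)) Q
    have h4 : (N : ℝ) ^ A ≤ (N : ℝ) ^ (A + 1) := pow_le_pow_right₀ hN1 (by omega)
    have h5 : ((N : ℝ) ^ γ) ^ Q * ((N : ℝ) ^ (-τ)) ^ Q = ((N : ℝ) ^ (-(τ - γ))) ^ Q := by
      rw [← mul_pow, ← Real.rpow_add hN0]
      congr 2
      ring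
    calc ((Q : ℝ) * w) ^ Q * (K * (1 + Q * Q) ^ A * (N : ℝ) ^ A * ((N : ℝ) ^ (-τ)) ^ Q)
        ≤ ((Q : ℝ) ^ Q * ((N : ℝ) ^ γ) ^ Q) * (K * (1 + Q * Q) ^ A * (N : ℝ) ^ (A + 1) *
            ((N : ℝ) ^ (-τ)) ^ Q) := by gcongr
      _ = (Q : ℝ) ^ Q * (K * (1 + Q * Q) ^ A) * ((N : ℝ) ^ (A + 1) *
            (((N : ℝ) ^ γ) ^ Q * ((N : ℝ) ^ (-τ)) ^ Q)) := by ring
      _ = (Q : ℝ) ^ Q * (K * (1 + Q * Q) ^ A) * ((N : ℝ) ^ (A + 1) *
            ((N : ℝ) ^ (-(τ - γ))) ^ Q) := by rw [h5]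
      _ ≤ _ := mul_le_mul_of_nonneg_left (pow_small hQ2 hN) (by positivity)
  have hfin : (g N : ℂ) - ∫ θ in (-d)..d, gf g (pt N θ) * ker γ Q N θ =
      (((Z w Q)^[Q] g) N : ℝ) + ((∫ θ in (-Real.pi)..(-d), gf g (pt N θ) * ker γ Q N θ) +
        ∫ θ in d..Real.pi, gf g (pt N θ) * ker γ Q N θ) := by
    have := hr2
    rw [hsplit] at this
    linear_combination this
  rw [hfin]
  refine (norm_add_le _ _).trans ?_
  rw [Complex.norm_real, Real.norm_eq_abs]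
  refine (add_le_add hZ2 ((norm_add_le _ _).trans (add_le_add hf1 hf2))).trans ?_
  apply le_of_eq
  ring

end Pool.Agent.H16TT
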