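import Pool.Agent.H16TT.Symb

/-!
# Iterated averages
-/

set_option autoImplicit false

open Finset MeasureTheory

namespace Pool.Agent.H16TT

/-- averages over windows of length `w` -/
noncomputable def S (w : ℕ) (u : ℕ → ℝ) : ℕ → ℝ := fun n => (∑ j ∈ range w, u (n + j)) / w

noncomputable def Z (w q : ℕ) (u : ℕ → ℝ) : ℕ → ℝ := fun n => u n - ((S w)^[q] u) n

/-- `|u| ≤ B` on `[n, n + L]` -/
def Bd (u : ℕ → ℝ) (n L : ℕ) (B : ℝ) : Prop := ∀ m, n ≤ m → m ≤ n + L → |u m| ≤ B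

theorem D_S (w : ℕ) (u : ℕ → ℝ) : D (S w u) = S w (D u) := by
  funext n
  simp only [D, S]
  rw [← sub_div, ← sum_sub_distrib]
  congr 1
  refine sum_congr rfl fun j _ => ?_
  rw [show n + 1 + j = n + j + 1 by ring]

theorem D_Sq (w q : ℕ) : ∀ u : ℕ → ℝ, D ((S w)^[q] u) = (S w)^[q] (D u) := by
  induction q with
  | zero => intro u; rfl
  | succ q ih =>
    intro u
    rw [Function.iterate_succ_apply, Function.iterate_succ_apply, ih, D_S]

theorem D_Z (w q : ℕ) (u : ℕ → ℝ) : D (Z w q u) = Z w q (D u) := by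
  funext n
  have h := congrFun (D_Sq w q u) n
  simp only [D] at h
  simp only [D, Z]
  rw [← h]
  ring

theorem D_iter_Z (w q R : ℕ) : ∀ u : ℕ → ℝ, D^[R] (Z w q u) = Z w q (D^[R] u) := by
  induction R with
  | zero => intro u; rfl
  | succ R ih =>
    intro u
    rw [Function.iterate_succ_apply, Function.iterate_succ_apply, D_Z, ih]

theorem Bd.S {w : ℕ} (hw : 1 ≤ w) {u : ℕ → ℝ} {n L : ℕ} {B : ℝ} (h : Bd u n (L + w) B) :
    Bd (S w u) n L B := by
  intro m h1 h2
  have hw0 : (0 : ℝ) < w := by exact_mod_cast hw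
  simp only [H16TT.S]
  rw [abs_div, abs_of_pos hw0, div_le_iff₀ hw0]
  refine (abs_sum_le_sum_abs _ _).trans ?_
  calc ∑ j ∈ range w, |u (m + j)| ≤ ∑ _j ∈ range w, B := by
        refine sum_le_sum fun j hj => h _ (by omega) ?_
        have := mem_range.1 hj
        omega
    _ = B * w := by rw [sum_const, card_range, nsmul_eq_mul]; ring

theorem Bd.Sq {w : ℕ} (hw : 1 ≤ w) (q : ℕ) : ∀ {u : ℕ → ℝ} {n L : ℕ} {B : ℝ},
    Bd u n (L + q * w) B → Bd ((H16TT.S w)^[q] u) n L B := by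
  induction q with
  | zero =>
    intro u n L B h
    simpa using h
  | succ q ih =>
    intro u n L B h
    rw [Function.iterate_succ_apply]
    refine ih (Bd.S hw ?_)
    rwa [show L + q * w + w = L + (q + 1) * w by ring]

theorem step_bd {u : ℕ → ℝ} {n L : ℕ} {B : ℝ} (h : Bd (D u) n L B) (m j : ℕ) (h1 : n ≤ m)
    (h2 : m + j ≤ n + L) : |u (m + j) - u m| ≤ j * B := by
  induction j with
  | zero => simp
  | succ j ih =>
    have h3 := ih (by omega)
    have h4 : |u (m + j + 1) - u (m + j)| ≤ B := h (m + j) (by omega) (by omega)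
    have e : u (m + (j + 1)) - u m = (u (m + j + 1) - u (m + j)) + (u (m + j) - u m) := by
      rw [show m + (j + 1) = m + j + 1 by ring]; ring
    rw [e]
    refine (abs_add_le _ _).trans ?_
    push_cast
    linarith

theorem S_sub {w : ℕ} (hw : 1 ≤ w) {u : ℕ → ℝ} {n L : ℕ} {B : ℝ} (hB : 0 ≤ B)
    (h : Bd (D u) n (L + w) B) (m : ℕ) (h1 : n ≤ m) (h2 : m ≤ n + L) :
    |S w u m - u m| ≤ w * B := by
  have hw0 : (0 : ℝ) < w := by exact_mod_cast hw
  have e : S w u m - u m = (∑ j ∈ range w, (u (m + j) - u m)) / w := by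
    simp only [S]
    rw [sum_sub_distrib, sum_const, card_range, nsmul_eq_mul]
    field_simp
  rw [e, abs_div, abs_of_pos hw0, div_le_iff₀ hw0]
  refine (abs_sum_le_sum_abs _ _).trans ?_
  calc ∑ j ∈ range w, |u (m + j) - u m| ≤ ∑ _j ∈ range w, (w * B) := by
        refine sum_le_sum fun j hj => ?_
        have hj' := mem_range.1 hj
        refine (step_bd h m j h1 (by omega)).trans ?_
        refine mul_le_mul_of_nonneg_right ?_ hB
        exact_mod_cast hj'.le
    _ = w * B * w := by rw [sum_const, card_range, nsmul_eq_mul]; ring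

theorem Sq_sub {w : ℕ} (hw : 1 ≤ w) {n : ℕ} {B : ℝ} (hB : 0 ≤ B) (q : ℕ) :
    ∀ {u : ℕ → ℝ} {L : ℕ}, Bd (D u) n (L + q * w) B → ∀ m, n ≤ m → m ≤ n + L →
      |((S w)^[q] u) m - u m| ≤ q * w * B := by
  induction q with
  | zero =>
    intro u L h m h1 h2
    simp
  | succ q ih =>
    intro u L h m h1 h2
    have h3 : Bd (D (S w u)) n (L + q * w) B := by
      rw [D_S]
      refine Bd.S hw ?_
      rwa [show L + q * w + w = L + (q + 1) * w by ring]
    have h4 := ih h3 m h1 h2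
    have h5 := S_sub hw hB (L := L + q * w) (u := u)
      (by rwa [show L + q * w + w = L + (q + 1) * w by ring]) m h1 (by omega)
    rw [Function.iterate_succ_apply]
    have e : ((S w)^[q] (S w u)) m - u m = (((S w)^[q] (S w u)) m - S w u m) + (S w u m - u m) := by
      ring
    rw [e]
    refine (abs_add_le _ _).trans ?_
    push_cast
    linarith

theorem Z_bd {w : ℕ} (hw : 1 ≤ w) {n : ℕ} {B : ℝ} (hB : 0 ≤ B) (q : ℕ) {u : ℕ → ℝ} {L : ℕ}
    (h : Bd (D u) n (L + q * w) B) : Bd (Z w q u) n L (q * w * B) := by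
  intro m h1 h2
  have := Sq_sub hw hB q h m h1 h2
  rw [abs_sub_comm] at this
  exact this

theorem Zq_bd {w : ℕ} (hw : 1 ≤ w) {n : ℕ} {B : ℝ} (hB : 0 ≤ B) (q R : ℕ) :
    ∀ {u : ℕ → ℝ} {L : ℕ}, Bd (D^[R] u) n (L + R * (q * w)) B →
      Bd ((Z w q)^[R] u) n L ((q * w) ^ R * B) := by
  induction R generalizing B with
  | zero =>
    intro u L h
    simpa using h
  | succ R ih =>
    intro u L h
    rw [Function.iterate_succ_apply]
    have h1 : Bd (D^[R] (Z w q u)) n (L + R * (q * w)) (q * w * B) := by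
      rw [D_iter_Z]
      refine Z_bd hw hB q ?_
      rw [← Function.iterate_succ_apply' D]
      rwa [show L + R * (q * w) + q * w = L + (R + 1) * (q * w) by ring]
    have h2 := ih (B := q * w * B) (by positivity) h1
    intro m h3 h4
    have h5 := h2 m h3 h4
    rw [pow_succ]
    linarith

/-- spectral representation -/
def Rep (ζ F : ℝ → ℂ) (u : ℕ → ℝ) : Prop :=
  Continuous F ∧ ∀ n, (u n : ℂ) = ∫ θ in (-Real.pi)..Real.pi, F θ * ζ θ ^ n

/-- the multiplier of the averages -/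
noncomputable def sig (w : ℕ) (z : ℂ) : ℂ := (∑ j ∈ range w, z ^ j) / w

theorem sig_cont (w : ℕ) {ζ : ℝ → ℂ} (hζ : Continuous ζ) : Continuous fun θ => sig w (ζ θ) := by
  unfold sig
  exact (continuous_finsetSum _ fun j _ => hζ.pow j).div_const _

theorem Rep.S {ζ F : ℝ → ℂ} (hζ : Continuous ζ) (w : ℕ) {u : ℕ → ℝ} (h : Rep ζ F u) :
    Rep ζ (fun θ => F θ * sig w (ζ θ)) (H16TT.S w u) := by
  obtain ⟨h1, h2⟩ := h
  refine ⟨h1.mul (sig_cont w hζ), fun n => ?_⟩
  have e : ∀ θ, F θ * sig w (ζ θ) * ζ θ ^ n = (∑ j ∈ range w, F θ * ζ θ ^ (n + j)) / w := by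
    intro θ
    unfold sig
    rw [mul_div_assoc', div_mul_eq_mul_div, mul_sum, sum_mul]
    congr 1
    refine sum_congr rfl fun j _ => ?_
    rw [pow_add]
    ring
  simp only [e]
  rw [intervalIntegral.integral_div, intervalIntegral.integral_finsetSum]
  · simp only [H16TT.S]
    push_cast
    congr 1
    exact sum_congr rfl fun j _ => h2 (n + j)
  · intro j _
    exact (h1.mul (hζ.pow _)).intervalIntegrable _ _

theorem Rep.Sq {ζ : ℝ → ℂ} (hζ : Continuous ζ) (w q : ℕ) : ∀ {F : ℝ → ℂ} {u : ℕ → ℝ},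
    Rep ζ F u → Rep ζ (fun θ => F θ * sig w (ζ θ) ^ q) ((H16TT.S w)^[q] u) := by
  induction q with
  | zero =>
    intro F u h
    simpa using h
  | succ q ih =>
    intro F u h
    rw [Function.iterate_succ_apply]
    have := ih (Rep.S hζ w h)
    refine (congrArg (fun G => Rep ζ G ((H16TT.S w)^[q] (H16TT.S w u))) ?_).mp this
    funext θ
    rw [pow_succ]
    ring

theorem Rep.sub {ζ F G : ℝ → ℂ} (hζ : Continuous ζ) {u v : ℕ → ℝ} (h : Rep ζ F u)
    (h' : Rep ζ G v) : Rep ζ (fun θ => F θ - G θ) (fun n => u n - v n) := by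
  refine ⟨h.1.sub h'.1, fun n => ?_⟩
  push_cast
  rw [h.2 n, h'.2 n, ← intervalIntegral.integral_sub]
  · simp only [sub_mul]
  · exact (h.1.mul (hζ.pow _)).intervalIntegrable _ _
  · exact (h'.1.mul (hζ.pow _)).intervalIntegrable _ _

theorem Rep.Z {ζ : ℝ → ℂ} (hζ : Continuous ζ) (w q : ℕ) {F : ℝ → ℂ} {u : ℕ → ℝ}
    (h : Rep ζ F u) : Rep ζ (fun θ => F θ * (1 - sig w (ζ θ) ^ q)) (H16TT.Z w q u) := by
  have := Rep.sub hζ h (Rep.Sq hζ w q h)
  refine (congrArg (fun G => Rep ζ G (H16TT.Z w q u)) ?_).mp this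
  funext θ
  ring

theorem Rep.Zq {ζ : ℝ → ℂ} (hζ : Continuous ζ) (w q R : ℕ) : ∀ {F : ℝ → ℂ} {u : ℕ → ℝ},
    Rep ζ F u → Rep ζ (fun θ => F θ * (1 - sig w (ζ θ) ^ q) ^ R) ((H16TT.Z w q)^[R] u) := by
  induction R with
  | zero =>
    intro F u h
    simpa using h
  | succ R ih =>
    intro F u h
    rw [Function.iterate_succ_apply]
    have := ih (Rep.Z hζ w q h)
    refine (congrArg (fun G => Rep ζ G ((H16TT.Z w q)^[R] (H16TT.Z w q u))) ?_).mp this
    funext θ
    rw [pow_succ]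
    ring

/-- the multiplier -/
noncomputable def mult (w q R : ℕ) (z : ℂ) : ℂ := 1 - (1 - sig w z ^ q) ^ R

theorem Rep.main {ζ : ℝ → ℂ} (hζ : Continuous ζ) (w q R : ℕ) {F : ℝ → ℂ} {u : ℕ → ℝ}
    (h : Rep ζ F u) : Rep ζ (fun θ => F θ * mult w q R (ζ θ))
      (fun n => u n - ((H16TT.Z w q)^[R] u) n) := by
  have := Rep.sub hζ h (Rep.Zq hζ w q R h)
  refine (congrArg (fun G => Rep ζ G (fun n => u n - ((H16TT.Z w q)^[R] u) n)) ?_).mp this
  funext θ
  unfold mult
  ring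

end Pool.Agent.H16TT
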