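import Mathlib

/-!
# Symbols: sequences whose differences of all orders gain powers of a decreasing scale
-/

set_option autoImplicit false

open Finset

namespace Pool.Agent.H16TT

/-- forward difference -/
def D (g : ℕ → ℝ) : ℕ → ℝ := fun n => g (n + 1) - g n

/-- shift -/
def E (g : ℕ → ℝ) : ℕ → ℝ := fun n => g (n + 1)

/-- symbols of order `k`, differences up to the order `I` -/
def OrdU (x : ℕ → ℝ) (I k : ℕ) (g : ℕ → ℝ) : Prop :=
  ∀ i, i ≤ I → ∃ K : ℝ, 0 ≤ K ∧ ∀ n, 1 ≤ n → |(D^[i] g) n| ≤ K * x n ^ (k + i)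

theorem iter_D_add (i : ℕ) : ∀ g h : ℕ → ℝ, D^[i] (fun n => g n + h n) =
    fun n => (D^[i] g) n + (D^[i] h) n := by
  induction i with
  | zero => intro g h; rfl
  | succ i ih =>
    intro g h
    rw [Function.iterate_succ_apply, Function.iterate_succ_apply, Function.iterate_succ_apply,
      ← ih]
    congr 1
    funext n
    simp only [D]
    ring

theorem iter_D_E (i : ℕ) : ∀ g : ℕ → ℝ, D^[i] (E g) = E (D^[i] g) := by
  induction i with
  | zero => intro g; rfl
  | succ i ih =>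
    intro g
    rw [Function.iterate_succ_apply, Function.iterate_succ_apply]
    have : D (E g) = E (D g) := rfl
    rw [this, ih]

theorem iter_D_smul (i : ℕ) (c : ℝ) : ∀ g : ℕ → ℝ, D^[i] (fun n => c * g n) =
    fun n => c * (D^[i] g) n := by
  induction i with
  | zero => intro g; rfl
  | succ i ih =>
    intro g
    rw [Function.iterate_succ_apply, Function.iterate_succ_apply, ← ih]
    congr 1
    funext n
    simp only [D]
    ring

variable {x : ℕ → ℝ} (hx0 : ∀ n, 0 ≤ x n) (hx1 : ∀ n, 1 ≤ n → x n ≤ 1)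
  (hxa : ∀ n, 1 ≤ n → x (n + 1) ≤ x n)

theorem OrdU.add {I k : ℕ} {g h : ℕ → ℝ} (hg : OrdU x I k g) (hh : OrdU x I k h) :
    OrdU x I k (fun n => g n + h n) := by
  intro i hi
  obtain ⟨K, hK, h1⟩ := hg i hi
  obtain ⟨L, hL, h2⟩ := hh i hi
  refine ⟨K + L, add_nonneg hK hL, fun n hn => ?_⟩
  rw [iter_D_add]
  refine (abs_add_le _ _).trans ?_
  rw [add_mul]
  exact add_le_add (h1 n hn) (h2 n hn)

include hx0 hxa in
theorem OrdU.E {I k : ℕ} {g : ℕ → ℝ} (hg : OrdU x I k g) : OrdU x I k (E g) := by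
  intro i hi
  obtain ⟨K, hK, h1⟩ := hg i hi
  refine ⟨K, hK, fun n hn => ?_⟩
  rw [iter_D_E]
  refine (h1 (n + 1) (by omega)).trans ?_
  exact mul_le_mul_of_nonneg_left (pow_le_pow_left₀ (hx0 _) (hxa n hn) _) hK

theorem OrdU.D {I k : ℕ} {g : ℕ → ℝ} (hg : OrdU x (I + 1) k g) : OrdU x I (k + 1) (D g) := by
  intro i hi
  obtain ⟨K, hK, h1⟩ := hg (i + 1) (by omega)
  refine ⟨K, hK, fun n hn => ?_⟩
  have := h1 n hn
  rw [Function.iterate_succ_apply] at this
  rw [show k + 1 + i = k + (i + 1) by ring]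
  exact this

include hx0 hx1 in
theorem OrdU.low {I k l : ℕ} (hlk : l ≤ k) {g : ℕ → ℝ} (hg : OrdU x I k g) : OrdU x I l g := by
  intro i hi
  obtain ⟨K, hK, h1⟩ := hg i hi
  refine ⟨K, hK, fun n hn => (h1 n hn).trans ?_⟩
  exact mul_le_mul_of_nonneg_left (pow_le_pow_of_le_one (hx0 _) (hx1 n hn) (by omega)) hK

theorem OrdU.less {I J k : ℕ} (hIJ : I ≤ J) {g : ℕ → ℝ} (hg : OrdU x J k g) : OrdU x I k g :=
  fun i hi => hg i (hi.trans hIJ)

theorem ord_one (I : ℕ) : OrdU x I 0 (fun _ => 1) := by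
  intro i hi
  cases i with
  | zero => exact ⟨1, zero_le_one, fun n hn => by simp⟩
  | succ i =>
    refine ⟨0, le_rfl, fun n hn => ?_⟩
    have : D^[i + 1] (fun _ : ℕ => (1 : ℝ)) = fun _ => 0 := by
      rw [Function.iterate_succ_apply]
      have h0 : D (fun _ : ℕ => (1 : ℝ)) = fun _ => (0 : ℝ) := by
        funext n
        simp [D]
      rw [h0]
      clear hi
      induction i with
      | zero => rfl
      | succ i ih =>
        rw [Function.iterate_succ_apply]
        have h1 : D (fun _ : ℕ => (0 : ℝ)) = fun _ => (0 : ℝ) := by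
          funext n
          simp [D]
        rw [h1, ih]
    rw [this]
    simp

include hx0 hxa in
theorem mul_aux (i : ℕ) : ∀ (k l : ℕ) (g h : ℕ → ℝ), OrdU x i k g → OrdU x i l h →
    ∃ K : ℝ, 0 ≤ K ∧ ∀ n, 1 ≤ n → |(D^[i] (fun n => g n * h n)) n| ≤ K * x n ^ (k + l + i) := by
  induction i with
  | zero =>
    intro k l g h hg hh
    obtain ⟨K, hK, h1⟩ := hg 0 le_rfl
    obtain ⟨L, hL, h2⟩ := hh 0 le_rfl
    refine ⟨K * L, mul_nonneg hK hL, fun n hn => ?_⟩
    simp only [Function.iterate_zero, id_eq, abs_mul, add_zero] at h1 h2 ⊢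
    calc |g n| * |h n| ≤ (K * x n ^ k) * (L * x n ^ l) :=
          mul_le_mul (h1 n hn) (h2 n hn) (abs_nonneg _) (mul_nonneg hK (pow_nonneg (hx0 n) _))
      _ = K * L * x n ^ (k + l) := by rw [pow_add]; ring
  | succ i ih =>
    intro k l g h hg hh
    obtain ⟨K, hK, h1⟩ := ih (k + 1) l (D g) (E h) hg.D
      (OrdU.E hx0 hxa (OrdU.less (by omega) hh))
    obtain ⟨L, hL, h2⟩ := ih k (l + 1) g (D h) (OrdU.less (by omega) hg) hh.D
    refine ⟨K + L, add_nonneg hK hL, fun n hn => ?_⟩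
    have e : D (fun n => g n * h n) = fun n => D g n * E h n + g n * D h n := by
      funext n
      simp only [D, E]
      ring
    rw [Function.iterate_succ_apply, e, iter_D_add]
    refine (abs_add_le _ _).trans ?_
    rw [add_mul]
    refine add_le_add ?_ ?_
    · have := h1 n hn
      rwa [show k + 1 + l + i = k + l + (i + 1) by ring] at this
    · have := h2 n hn
      rwa [show k + (l + 1) + i = k + l + (i + 1) by ring] at this

include hx0 hxa in
theorem OrdU.mul {I k l : ℕ} {g h : ℕ → ℝ} (hg : OrdU x I k g) (hh : OrdU x I l h) :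
    OrdU x I (k + l) (fun n => g n * h n) := fun i hi =>
  mul_aux hx0 hxa i k l g h (OrdU.less hi hg) (OrdU.less hi hh)

theorem exp_sub_one_le (t : ℝ) : |Real.exp t - 1| ≤ |t| * Real.exp |t| := by
  have h1 : t + 1 ≤ Real.exp t := Real.add_one_le_exp t
  have h2 : Real.exp t * (1 - t) ≤ 1 := by
    have h3 : 1 - t ≤ Real.exp (-t) := by
      have := Real.add_one_le_exp (-t)
      linarith
    have h4 := mul_le_mul_of_nonneg_left h3 (Real.exp_pos t).le
    rwa [← Real.exp_add, add_neg_cancel, Real.exp_zero] at h4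
  have h5 : 1 ≤ Real.exp |t| := Real.one_le_exp (abs_nonneg t)
  have h6 : Real.exp t ≤ Real.exp |t| := Real.exp_le_exp.2 (le_abs_self t)
  rw [abs_le]
  constructor
  · have h7 : |t| ≤ |t| * Real.exp |t| := le_mul_of_one_le_right (abs_nonneg t) h5
    have h8 := neg_abs_le t
    linarith
  · have h7 : t * Real.exp t ≤ |t| * Real.exp |t| :=
      mul_le_mul (le_abs_self t) h6 (Real.exp_pos t).le (abs_nonneg t)
    nlinarith

/-- `f` is the logarithm of a symbol -/
def LogSym (x : ℕ → ℝ) (f : ℕ → ℝ) : Prop :=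
  ∀ r, 1 ≤ r → ∃ K : ℝ, 0 ≤ K ∧ ∀ n, 1 ≤ n → |(D^[r] f) n| ≤ K * x n ^ r

include hx0 hx1 hxa in
theorem phi_ord {f : ℕ → ℝ} (hf : LogSym x f) (I : ℕ) : ∀ j : ℕ,
    OrdU x I (j + 1) (fun n => Real.exp ((D^[j + 1] f) n) - 1) := by
  induction I with
  | zero =>
    intro j i hi
    obtain rfl : i = 0 := by omega
    obtain ⟨K, hK, h⟩ := hf (j + 1) (by omega)
    refine ⟨K * Real.exp K, by positivity, fun n hn => ?_⟩
    simp only [Function.iterate_zero, id_eq, add_zero]
    have h1 := h n hn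
    have h2 : |(D^[j + 1] f) n| ≤ K := by
      refine h1.trans ?_
      exact mul_le_of_le_one_right hK (pow_le_one₀ (hx0 n) (hx1 n hn))
    refine (exp_sub_one_le _).trans ?_
    calc |(D^[j + 1] f) n| * Real.exp |(D^[j + 1] f) n| ≤ (K * x n ^ (j + 1)) * Real.exp K :=
          mul_le_mul h1 (Real.exp_le_exp.2 h2) (Real.exp_pos _).le
            (mul_nonneg hK (pow_nonneg (hx0 n) _))
      _ = K * Real.exp K * x n ^ (j + 1) := by ring
  | succ I ih =>
    intro j i hi
    cases i with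
    | zero => exact ih j 0 (by omega)
    | succ i =>
      have e : D (fun n => Real.exp ((D^[j + 1] f) n) - 1) = fun n =>
          (1 + (Real.exp ((D^[j + 1] f) n) - 1)) * (Real.exp ((D^[j + 1 + 1] f) n) - 1) := by
        funext n
        have e1 : (D^[j + 1 + 1] f) n = (D^[j + 1] f) (n + 1) - (D^[j + 1] f) n := by
          rw [Function.iterate_succ_apply']
          rfl
        rw [e1]
        simp only [D]
        have e2 : Real.exp ((D^[j + 1] f) (n + 1)) = Real.exp ((D^[j + 1] f) n) *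
            Real.exp ((D^[j + 1] f) (n + 1) - (D^[j + 1] f) n) := by
          rw [← Real.exp_add]
          congr 1
          ring
        have e3 : (D^[j + 1] f) = (fun m => (D^[j + 1] f) m) := rfl
        change Real.exp ((D^[j + 1] f) (n + 1)) - 1 - (Real.exp ((D^[j + 1] f) n) - 1) =
          (1 + (Real.exp ((D^[j + 1] f) n) - 1)) *
            (Real.exp ((D^[j + 1] f) (n + 1) - (D^[j + 1] f) n) - 1)
        rw [e2]
        ring
      have h1 : OrdU x I 0 (fun n => 1 + (Real.exp ((D^[j + 1] f) n) - 1)) :=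
        OrdU.add (ord_one I) (OrdU.low hx0 hx1 (Nat.zero_le _) (ih j))
      obtain ⟨K, hK, h2⟩ := OrdU.mul hx0 hxa h1 (ih (j + 1)) i (by omega)
      refine ⟨K, hK, fun n hn => ?_⟩
      rw [Function.iterate_succ_apply, e]
      have := h2 n hn
      rwa [show 0 + (j + 1 + 1) + i = j + 1 + (i + 1) by ring] at this

include hx0 hx1 hxa in
/-- The differences of the exponential. -/
theorem exp_sym {f : ℕ → ℝ} (hf : LogSym x f) (r : ℕ) : ∃ V : ℕ → ℝ, (∀ I, OrdU x I r V) ∧
    D^[r] (fun n => Real.exp (f n)) = fun n => Real.exp (f n) * V n := by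
  induction r with
  | zero =>
    refine ⟨fun _ => 1, fun I => ord_one I, ?_⟩
    funext n
    simp
  | succ r ih =>
    obtain ⟨V, hV, e⟩ := ih
    refine ⟨fun n => D V n + (Real.exp ((D^[0 + 1] f) n) - 1) * E V n, fun I => ?_, ?_⟩
    · refine OrdU.add (hV (I + 1)).D ?_
      have h1 := OrdU.mul hx0 hxa (phi_ord hx0 hx1 hxa hf I 0) (OrdU.E hx0 hxa (hV I))
      rwa [show 0 + 1 + r = r + 1 by ring] at h1
    · rw [Function.iterate_succ_apply', e]
      funext n
      change Real.exp (f (n + 1)) * V (n + 1) - Real.exp (f n) * V n =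
        Real.exp (f n) * ((V (n + 1) - V n) + (Real.exp (f (n + 1) - f n) - 1) * V (n + 1))
      have e2 : Real.exp (f (n + 1)) = Real.exp (f n) * Real.exp (f (n + 1) - f n) := by
        rw [← Real.exp_add]
        congr 1
        ring
      rw [e2]
      ring

include hx0 hx1 hxa in
theorem exp_diff {f : ℕ → ℝ} (hf : LogSym x f) (r : ℕ) : ∃ K : ℝ, 0 ≤ K ∧ ∀ n, 1 ≤ n →
    |(D^[r] (fun n => Real.exp (f n))) n| ≤ K * Real.exp (f n) * x n ^ r := by
  obtain ⟨V, hV, e⟩ := exp_sym hx0 hx1 hxa hf r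
  obtain ⟨K, hK, h⟩ := hV 0 0 le_rfl
  refine ⟨K, hK, fun n hn => ?_⟩
  have h1 := h n hn
  simp only [Function.iterate_zero, id_eq, add_zero] at h1
  rw [e]
  simp only
  rw [abs_mul, abs_of_pos (Real.exp_pos _)]
  have := mul_le_mul_of_nonneg_left h1 (Real.exp_pos (f n)).le
  linarith

end Pool.Agent.H16TT
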