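import Pool.Agent.H16TT.Main

/-!
# The Tauberian theorem
-/

set_option autoImplicit false

open Finset MeasureTheory Filter Topology

namespace Pool.Agent.H16TT

noncomputable def phi (κ x : ℝ) : ℝ := (1 + ‖x‖ ^ 2) ^ (-(κ + 1) / 2)

theorem phi_int {κ : ℝ} (hκ : 0 < κ) : Integrable (phi κ) := by
  have h := integrable_rpow_neg_one_add_norm_sq (E := ℝ) (μ := volume) (r := κ + 1)
    (by simp; linarith)
  exact h

theorem phi_nonneg (κ x : ℝ) : 0 ≤ phi κ x := by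
  unfold phi
  positivity

theorem norm_pt_pow {κ : ℝ} {N : ℕ} (hN : 1 ≤ N) (θ : ℝ) :
    ‖pt N θ‖ ^ (-(κ + 1)) = (N : ℝ) ^ (κ + 1) * phi κ (N * θ) := by
  have hN0 : (0 : ℝ) < N := by exact_mod_cast hN
  have h1 : ‖pt N θ‖ = (N : ℝ)⁻¹ * (1 + ‖(N : ℝ) * θ‖ ^ 2) ^ ((1 : ℝ) / 2) := by
    rw [Complex.norm_eq_sqrt_sq_add_sq, pt_re, pt_im, ← Real.sqrt_eq_rpow, Real.norm_eq_abs, sq_abs]
    have e : (1 / (N : ℝ)) ^ 2 + θ ^ 2 = ((N : ℝ)⁻¹) ^ 2 * (1 + ((N : ℝ) * θ) ^ 2) := by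
      field_simp
    rw [e, Real.sqrt_mul (by positivity), Real.sqrt_sq (by positivity)]
  rw [h1, Real.mul_rpow (by positivity) (by positivity), ← Real.rpow_mul (by positivity),
    Real.inv_rpow hN0.le, ← Real.rpow_neg hN0.le, neg_neg]
  unfold phi
  congr 2
  ring

theorem near_bd {κ : ℝ} (hκ : 0 < κ) : ∃ I : ℝ, 0 ≤ I ∧ ∀ N : ℕ, 1 ≤ N → ∀ d : ℝ, 0 ≤ d →
    ∫ θ in (-d)..d, ‖pt N θ‖ ^ (-(κ + 1)) ≤ I * (N : ℝ) ^ κ := by
  refine ⟨∫ x, phi κ x, integral_nonneg (phi_nonneg κ), fun N hN d hd => ?_⟩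
  have hN0 : (0 : ℝ) < N := by exact_mod_cast hN
  simp only [norm_pt_pow hN]
  rw [intervalIntegral.integral_const_mul, intervalIntegral.integral_comp_mul_left (phi κ) hN0.ne']
  have h1 : (∫ x in ((N : ℝ) * -d)..((N : ℝ) * d), phi κ x) ≤ ∫ x, phi κ x := by
    rw [intervalIntegral.integral_of_le (by nlinarith)]
    exact setIntegral_le_integral (phi_int hκ) (Eventually.of_forall (phi_nonneg κ))
  have h2 : (N : ℝ) ^ (κ + 1) = (N : ℝ) ^ κ * N := by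
    rw [Real.rpow_add hN0, Real.rpow_one]
  rw [h2, smul_eq_mul]
  have h3 : (N : ℝ) ^ κ * N * ((N : ℝ)⁻¹ * ∫ x in ((N : ℝ) * -d)..((N : ℝ) * d), phi κ x) =
      (N : ℝ) ^ κ * ∫ x in ((N : ℝ) * -d)..((N : ℝ) * d), phi κ x := by
    field_simp
  rw [h3, mul_comm (∫ x, phi κ x)]
  exact mul_le_mul_of_nonneg_left h1 (by positivity)

/-- **Tauberian estimate**, uniform in `N` and `ε`. -/
theorem taub {A M Q : ℕ} {τ γ α κ : ℝ} (hκ : 0 < κ) (hα : 0 < α) (hαγ : α < γ) (hγτ : γ < τ)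
    (hτ : τ < 1) (hQ1 : (A : ℝ) + 1 + M ≤ (γ - α) * Q) (hQ2 : (A : ℝ) + 1 + M ≤ (τ - γ) * Q)
    {g : ℕ → ℝ} (hg : Slow A τ g) : ∃ C : ℝ, 0 ≤ C ∧ ∀ N : ℕ, 1 ≤ N → ∀ ε : ℝ, 0 ≤ ε →
      (∀ θ : ℝ, |θ| ≤ (N : ℝ) ^ (-α) → ‖gf g (pt N θ)‖ ≤ ε * ‖pt N θ‖ ^ (-(κ + 1))) →
      |g N| ≤ C * (ε * (N : ℝ) ^ κ + (N : ℝ) ^ (-(M : ℝ))) := by
  obtain ⟨C₁, hC₁, h1⟩ := localize hα hαγ hγτ hτ hQ1 hQ2 hg
  obtain ⟨C₂, hC₂, h2⟩ := ker_bd Q
  obtain ⟨I, hI, h3⟩ := near_bd hκ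
  refine ⟨C₁ + C₂ * I, by positivity, fun N hN ε hε h => ?_⟩
  have hN1 : (1 : ℝ) ≤ N := by exact_mod_cast hN
  have hN0 : (0 : ℝ) < N := by linarith
  have hd0 : 0 < (N : ℝ) ^ (-α) := Real.rpow_pos_of_pos hN0 _
  set d := (N : ℝ) ^ (-α) with hd
  have h4 := h1 N hN
  have hcp : Continuous fun θ => ‖pt N θ‖ ^ (-(κ + 1)) := by
    refine Continuous.rpow_const (pt_cont N).norm fun θ => Or.inl ?_
    rw [norm_ne_zero_iff]
    intro h5
    have h6 := pt_re N θ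
    rw [h5, Complex.zero_re] at h6
    have h7 : 0 < 1 / (N : ℝ) := by positivity
    linarith
  have h5 : ‖∫ θ in (-d)..d, gf g (pt N θ) * ker γ Q N θ‖ ≤ (ε * C₂) * (I * (N : ℝ) ^ κ) := by
    have h6 : ‖∫ θ in (-d)..d, gf g (pt N θ) * ker γ Q N θ‖ ≤
        ∫ θ in (-d)..d, (ε * C₂) * ‖pt N θ‖ ^ (-(κ + 1)) := by
      refine intervalIntegral.norm_integral_le_of_norm_le (by linarith)
        (Eventually.of_forall fun θ hθ => ?_) ((continuous_const.mul hcp).intervalIntegrable _ _)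
      have h7 : |θ| ≤ d := abs_le.2 ⟨hθ.1.le, hθ.2⟩
      rw [norm_mul]
      calc ‖gf g (pt N θ)‖ * ‖ker γ Q N θ‖ ≤ (ε * ‖pt N θ‖ ^ (-(κ + 1))) * C₂ :=
            mul_le_mul (h θ h7) (h2 γ (by linarith) (by linarith) N hN θ).1 (norm_nonneg _)
              (by positivity)
        _ = _ := by ring
    refine h6.trans ?_
    rw [intervalIntegral.integral_const_mul]
    exact mul_le_mul_of_nonneg_left (h3 N hN d hd0.le) (by positivity)
  have h6 : ‖(g N : ℂ)‖ ≤ C₁ * (N : ℝ) ^ (-(M : ℝ)) + (ε * C₂) * (I * (N : ℝ) ^ κ) := by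
    have e : (g N : ℂ) = ((g N : ℂ) - ∫ θ in (-d)..d, gf g (pt N θ) * ker γ Q N θ) +
      ∫ θ in (-d)..d, gf g (pt N θ) * ker γ Q N θ := by ring
    rw [e]
    exact (norm_add_le _ _).trans (add_le_add h4 h5)
  rw [Complex.norm_real, Real.norm_eq_abs] at h6
  refine h6.trans ?_
  have h7 : 0 ≤ C₂ * I * (N : ℝ) ^ (-(M : ℝ)) := by positivity
  have h8 : 0 ≤ C₁ * (ε * (N : ℝ) ^ κ) := by positivity
  nlinarith

/-! ### slowly varying sequences -/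

theorem D_congr {g h : ℕ → ℝ} (e : ∀ n, 1 ≤ n → g n = h n) (r : ℕ) :
    ∀ n, 1 ≤ n → (D^[r] g) n = (D^[r] h) n := by
  induction r with
  | zero => exact e
  | succ r ih =>
    intro n hn
    rw [Function.iterate_succ_apply', Function.iterate_succ_apply']
    simp only [D]
    rw [ih n hn, ih (n + 1) (by omega)]

theorem slow_exp {A : ℕ} {τ : ℝ} (hτ : 0 < τ) {f g : ℕ → ℝ}
    (hf : LogSym (fun n => (n : ℝ) ^ (-τ)) f) (hg : ∀ n, 1 ≤ n → g n = Real.exp (f n)) {K : ℝ}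
    (hK : ∀ n : ℕ, 1 ≤ n → g n ≤ K * (n : ℝ) ^ A) : Slow A τ g := by
  have hx0 : ∀ n : ℕ, 0 ≤ (n : ℝ) ^ (-τ) := fun n => by positivity
  have hx1 : ∀ n : ℕ, 1 ≤ n → (n : ℝ) ^ (-τ) ≤ 1 := fun n hn =>
    Real.rpow_le_one_of_one_le_of_nonpos (by exact_mod_cast hn) (by linarith)
  have hxa : ∀ n : ℕ, 1 ≤ n → ((n + 1 : ℕ) : ℝ) ^ (-τ) ≤ (n : ℝ) ^ (-τ) := fun n hn =>
    Real.rpow_le_rpow_of_nonpos (by exact_mod_cast hn) (by push_cast; linarith) (by linarith)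
  have hgp : ∀ n, 1 ≤ n → 0 < g n := fun n hn => by rw [hg n hn]; exact Real.exp_pos _
  have hK0 : 0 ≤ K := by
    have h1 := hK 1 le_rfl
    have h2 := hgp 1 le_rfl
    simp only [Nat.cast_one, one_pow, mul_one] at h1
    linarith
  refine ⟨⟨K + |g 0|, by positivity, fun n => ?_⟩, fun r => ?_⟩
  · rcases Nat.eq_zero_or_pos n with rfl | hn
    · simp
      exact hK0
    · rw [abs_of_pos (hgp n hn)]
      refine (hK n hn).trans ?_
      have h1 : (n : ℝ) ^ A ≤ ((n : ℝ) + 1) ^ A := pow_le_pow_left₀ (by positivity) (by linarith) A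
      have h2 := mul_le_mul_of_nonneg_left h1 hK0
      have h3 : 0 ≤ |g 0| * ((n : ℝ) + 1) ^ A := by positivity
      linarith
  · obtain ⟨L, hL, h⟩ := exp_diff hx0 hx1 hxa hf r
    refine ⟨L * K, by positivity, fun n hn => ?_⟩
    rw [D_congr hg r n hn]
    refine (h n hn).trans ?_
    refine mul_le_mul_of_nonneg_right ?_ (by positivity)
    rw [mul_assoc, ← hg n hn]
    exact mul_le_mul_of_nonneg_left (hK n hn) hL

theorem Slow.smul {A : ℕ} {τ : ℝ} {g : ℕ → ℝ} (hg : Slow A τ g) (c : ℝ) :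
    Slow A τ (fun n => c * g n) := by
  obtain ⟨⟨K, hK, h1⟩, h2⟩ := hg
  refine ⟨⟨|c| * K, by positivity, fun n => ?_⟩, fun r => ?_⟩
  · rw [abs_mul, mul_assoc]
    exact mul_le_mul_of_nonneg_left (h1 n) (abs_nonneg c)
  · obtain ⟨L, hL, h⟩ := h2 r
    refine ⟨|c| * L, by positivity, fun n hn => ?_⟩
    rw [iter_D_smul]
    simp only
    rw [abs_mul, mul_assoc |c|, mul_assoc |c|]
    exact mul_le_mul_of_nonneg_left (h n hn) (abs_nonneg c)

theorem Slow.add {A : ℕ} {τ : ℝ} {g h : ℕ → ℝ} (hg : Slow A τ g) (hh : Slow A τ h) :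
    Slow A τ (fun n => g n + h n) := by
  obtain ⟨⟨K, hK, h1⟩, h2⟩ := hg
  obtain ⟨⟨K', hK', h1'⟩, h2'⟩ := hh
  refine ⟨⟨K + K', by positivity, fun n => ?_⟩, fun r => ?_⟩
  · rw [add_mul]
    exact (abs_add_le _ _).trans (add_le_add (h1 n) (h1' n))
  · obtain ⟨L, hL, h⟩ := h2 r
    obtain ⟨L', hL', h'⟩ := h2' r
    refine ⟨L + L', by positivity, fun n hn => ?_⟩
    rw [iter_D_add]
    simp only
    rw [add_mul, add_mul]
    exact (abs_add_le _ _).trans (add_le_add (h n hn) (h' n hn))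

theorem slow_zero (A : ℕ) (τ : ℝ) : Slow A τ (fun _ => 0) := by
  have h0 : ∀ r, D^[r] (fun _ : ℕ => (0 : ℝ)) = fun _ => 0 := by
    intro r
    induction r with
    | zero => rfl
    | succ r ih =>
      rw [Function.iterate_succ_apply', ih]
      funext n
      simp [D]
  refine ⟨⟨0, le_rfl, fun n => by simp⟩, fun r => ⟨0, le_rfl, fun n hn => ?_⟩⟩
  rw [h0]
  simp

theorem Slow.sum {ι : Type} {A : ℕ} {τ : ℝ} (s : Finset ι) {g : ι → ℕ → ℝ}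
    (hg : ∀ i ∈ s, Slow A τ (g i)) : Slow A τ (fun n => ∑ i ∈ s, g i n) := by
  classical
  induction s using Finset.induction_on with
  | empty => simpa using slow_zero A τ
  | insert a s ha ih =>
    have h1 := Slow.add (hg a (mem_insert_self a s)) (ih fun i hi => hg i (mem_insert_of_mem hi))
    refine (congrArg (Slow A τ) ?_).mp h1
    funext n
    rw [sum_insert ha]

theorem LogSym.add {x : ℕ → ℝ} {f g : ℕ → ℝ} (hf : LogSym x f) (hg : LogSym x g) :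
    LogSym x (fun n => f n + g n) := by
  intro r hr
  obtain ⟨K, hK, h⟩ := hf r hr
  obtain ⟨L, hL, h'⟩ := hg r hr
  refine ⟨K + L, add_nonneg hK hL, fun n hn => ?_⟩
  rw [iter_D_add, add_mul]
  exact (abs_add_le _ _).trans (add_le_add (h n hn) (h' n hn))

/-- the comparison sequence -/
noncomputable def cmp {m : ℕ} (c β : Fin m → ℝ) (n : ℕ) : ℝ := ∑ i, c i * (n : ℝ) ^ (-(β i))

/-- The sequences of the applications. -/
theorem slow_app {τ : ℝ} (hτ : 0 < τ) {b : ℕ → ℝ} (hb : ∀ n, 1 ≤ n → 0 < b n)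
    (hf : LogSym (fun n => (n : ℝ) ^ (-τ)) (fun n => Real.log (b n)))
    (hlog : ∀ κ : ℝ, LogSym (fun n => (n : ℝ) ^ (-τ)) (fun n => κ * Real.log n))
    {K : ℝ} {B : ℕ} (hK : ∀ n : ℕ, 1 ≤ n → b n ≤ K * (n : ℝ) ^ B) (k : ℕ) {m : ℕ}
    (c β : Fin m → ℝ) : ∃ A : ℕ, Slow A τ (fun n => (n : ℝ) ^ k * (b n - cmp c β n)) := by
  -- the exponent
  obtain ⟨A₀, hA₀⟩ : ∃ A₀ : ℕ, ∀ i, (k : ℝ) - β i ≤ A₀ := by
    refine ⟨∑ i, ⌈|(k : ℝ) - β i|⌉₊, fun i => ?_⟩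
    have h1 : ((k : ℝ) - β i) ≤ ⌈|(k : ℝ) - β i|⌉₊ := (le_abs_self _).trans (Nat.le_ceil _)
    have h2 : ⌈|(k : ℝ) - β i|⌉₊ ≤ ∑ i, ⌈|(k : ℝ) - β i|⌉₊ :=
      single_le_sum (f := fun i => ⌈|(k : ℝ) - β i|⌉₊) (fun _ _ => Nat.zero_le _) (mem_univ i)
    exact h1.trans (by exact_mod_cast h2)
  refine ⟨k + B + A₀, ?_⟩
  set A := k + B + A₀ with hA
  have h1 : Slow A τ (fun n => (n : ℝ) ^ k * b n) := by
    refine slow_exp hτ (LogSym.add hf (hlog k)) (K := |K|) (fun n hn => ?_) fun n hn => ?_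
    · have hn0 : (0 : ℝ) < n := by exact_mod_cast hn
      rw [Real.exp_add, Real.exp_log (hb n hn), ← Real.log_rpow hn0, Real.exp_log (by positivity),
        Real.rpow_natCast]
      ring
    · have hn1 : (1 : ℝ) ≤ n := by exact_mod_cast hn
      calc (n : ℝ) ^ k * b n ≤ (n : ℝ) ^ k * (|K| * (n : ℝ) ^ B) := by
            refine mul_le_mul_of_nonneg_left ((hK n hn).trans ?_) (by positivity)
            exact mul_le_mul_of_nonneg_right (le_abs_self K) (by positivity)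
        _ = |K| * (n : ℝ) ^ (k + B) := by rw [pow_add]; ring
        _ ≤ |K| * (n : ℝ) ^ A := mul_le_mul_of_nonneg_left
            (pow_le_pow_right₀ hn1 (by omega)) (abs_nonneg K)
  have h2 : ∀ i, Slow A τ (fun n => (n : ℝ) ^ k * (n : ℝ) ^ (-(β i))) := by
    intro i
    have e : ∀ n : ℕ, 1 ≤ n → (n : ℝ) ^ k * (n : ℝ) ^ (-(β i)) = (n : ℝ) ^ ((k : ℝ) - β i) := by
      intro n hn
      have hn0 : (0 : ℝ) < n := by exact_mod_cast hn
      rw [← Real.rpow_natCast, ← Real.rpow_add hn0, sub_eq_add_neg]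
    refine slow_exp hτ (hlog ((k : ℝ) - β i)) (K := 1) (fun n hn => ?_) fun n hn => ?_
    · have hn0 : (0 : ℝ) < n := by exact_mod_cast hn
      rw [e n hn, ← Real.log_rpow hn0, Real.exp_log (by positivity)]
    · have hn1 : (1 : ℝ) ≤ n := by exact_mod_cast hn
      rw [e n hn, one_mul, ← Real.rpow_natCast]
      apply Real.rpow_le_rpow_of_exponent_le hn1
      have := hA₀ i
      rw [hA]
      push_cast
      have h3 : (0 : ℝ) ≤ k := Nat.cast_nonneg _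
      have h4 : (0 : ℝ) ≤ B := Nat.cast_nonneg _
      linarith
  have h3 := Slow.add h1 (Slow.sum univ fun i _ => Slow.smul (h2 i) (-(c i)))
  refine (congrArg (Slow A τ) ?_).mp h3
  funext n
  unfold cmp
  rw [mul_sub, mul_sum, sub_eq_add_neg, ← sum_neg_distrib]
  congr 1
  refine sum_congr rfl fun i _ => ?_
  ring

/-- the tangential region -/
def region (α s₀ : ℝ) : Set ℂ := {s | 0 < s.re ∧ s.re < s₀ ∧ |s.im| ≤ s.re ^ α}

theorem pt_mem {α s₀ : ℝ} {N : ℕ} (hN : 1 ≤ N) (hs : 1 / (N : ℝ) < s₀) {θ : ℝ}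
    (hθ : |θ| ≤ (N : ℝ) ^ (-α)) : pt N θ ∈ region α s₀ := by
  have hN0 : (0 : ℝ) < N := by exact_mod_cast hN
  refine ⟨?_, ?_, ?_⟩
  · rw [pt_re]; positivity
  · rwa [pt_re]
  · rw [pt_im, pt_re, one_div, Real.inv_rpow hN0.le, ← Real.rpow_neg hN0.le]
    exact hθ

/-- **The general theorem.** -/
theorem general {b : ℕ → ℝ} (hb : ∀ n, 1 ≤ n → 0 < b n)
    (hf : ∀ τ : ℝ, 0 < τ → τ < 1 / 2 →
      LogSym (fun n => (n : ℝ) ^ (-τ)) (fun n => Real.log (b n)))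
    (hlog : ∀ τ κ : ℝ, 0 < τ → τ < 1 / 2 →
      LogSym (fun n => (n : ℝ) ^ (-τ)) (fun n => κ * Real.log n))
    {K : ℝ} {B : ℕ} (hK : ∀ n : ℕ, 1 ≤ n → b n ≤ K * (n : ℝ) ^ B) :
    (∀ (α γ : ℝ), 0 < α → α < γ → γ < 1 / 2 → ∀ M : ℕ, ∃ (Q : ℕ) (C : ℝ), ∀ N : ℕ, 1 ≤ N →
      ‖(b N : ℂ) - ∫ θ in (-((N : ℝ) ^ (-α)))..((N : ℝ) ^ (-α)), gf b (pt N θ) * ker γ Q N θ‖ ≤
        C * (N : ℝ) ^ (-(M : ℝ))) ∧
    ∀ (α : ℝ), 0 < α → α < 1 / 2 → ∀ (k : ℕ) (β : ℝ), β < k → ∀ (m : ℕ) (c e : Fin m → ℝ),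
      ((∀ ε : ℝ, 0 < ε → ∃ s₀ : ℝ, 0 < s₀ ∧ ∀ s ∈ region α s₀,
          ‖gf (fun n => (n : ℝ) ^ k * (b n - cmp c e n)) s‖ ≤ ε * ‖s‖ ^ (-((k : ℝ) - β + 1))) →
        (fun n => b n - cmp c e n) =o[atTop] fun n : ℕ => (n : ℝ) ^ (-β)) ∧
      ((∃ C s₀ : ℝ, 0 < s₀ ∧ ∀ s ∈ region α s₀,
          ‖gf (fun n => (n : ℝ) ^ k * (b n - cmp c e n)) s‖ ≤ C * ‖s‖ ^ (-((k : ℝ) - β + 1))) →
        (fun n => b n - cmp c e n) =O[atTop] fun n : ℕ => (n : ℝ) ^ (-β)) := by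
  constructor
  · intro α γ hα hαγ hγ M
    set τ : ℝ := (γ + 1 / 2) / 2 with hτ
    have hτ0 : 0 < τ := by linarith
    obtain ⟨A, hA⟩ := slow_app hτ0 hb (hf τ hτ0 (by linarith)) (fun κ => hlog τ κ hτ0 (by linarith))
      hK 0 (m := 0) (fun _ => 0) (fun _ => 0)
    have hb' : Slow A τ b := by
      refine (congrArg (Slow A τ) ?_).mp hA
      funext n
      simp [cmp]
    obtain ⟨Q, hQ⟩ := exists_nat_ge (((A : ℝ) + 1 + M) / min (γ - α) (τ - γ))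
    have hmin : 0 < min (γ - α) (τ - γ) := lt_min (by linarith) (by linarith)
    rw [div_le_iff₀ hmin] at hQ
    have hQ0 : (0 : ℝ) ≤ Q := Nat.cast_nonneg _
    obtain ⟨C, _, h⟩ := localize (M := M) (Q := Q) hα hαγ (show γ < τ by linarith)
      (by linarith)
      (hQ.trans (by rw [mul_comm]; exact mul_le_mul_of_nonneg_right (min_le_left _ _) hQ0))
      (hQ.trans (by rw [mul_comm]; exact mul_le_mul_of_nonneg_right (min_le_right _ _) hQ0)) hb'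
    exact ⟨Q, C, h⟩
  · intro α hα hα2 k β hβ m c e
    set γ : ℝ := (α + 1 / 2) / 2 with hγ
    set τ : ℝ := (γ + 1 / 2) / 2 with hτ
    have hτ0 : 0 < τ := by linarith
    obtain ⟨A, hA⟩ := slow_app hτ0 hb (hf τ hτ0 (by linarith)) (fun κ => hlog τ κ hτ0 (by linarith))
      hK k c e
    obtain ⟨M, hM⟩ := exists_nat_ge (β - k + 1)
    obtain ⟨Q, hQ⟩ := exists_nat_ge (((A : ℝ) + 1 + M) / min (γ - α) (τ - γ))
    have hmin : 0 < min (γ - α) (τ - γ) := lt_min (by linarith) (by linarith)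
    rw [div_le_iff₀ hmin] at hQ
    have hQ0 : (0 : ℝ) ≤ Q := Nat.cast_nonneg _
    obtain ⟨C, hC, h⟩ := taub (κ := (k : ℝ) - β) (M := M) (Q := Q) (by linarith) hα
      (show α < γ by linarith) (show γ < τ by linarith) (by linarith)
      (hQ.trans (by rw [mul_comm]; exact mul_le_mul_of_nonneg_right (min_le_left _ _) hQ0))
      (hQ.trans (by rw [mul_comm]; exact mul_le_mul_of_nonneg_right (min_le_right _ _) hQ0)) hA
    -- transfer to `b`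
    have key : ∀ N : ℕ, 1 ≤ N → ∀ ε s₀ : ℝ, 0 ≤ ε → 1 / (N : ℝ) < s₀ →
        (∀ s ∈ region α s₀, ‖gf (fun n => (n : ℝ) ^ k * (b n - cmp c e n)) s‖ ≤
          ε * ‖s‖ ^ (-((k : ℝ) - β + 1))) →
        |b N - cmp c e N| ≤ C * (ε + 1 / N) * (N : ℝ) ^ (-β) := by
      intro N hN ε s₀ hε hs hh
      have hN1 : (1 : ℝ) ≤ N := by exact_mod_cast hN
      have hN0 : (0 : ℝ) < N := by linarith
      have h1 := h N hN ε hε fun θ hθ => hh _ (pt_mem hN hs hθ)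
      rw [abs_mul, abs_of_nonneg (by positivity : (0 : ℝ) ≤ (N : ℝ) ^ k)] at h1
      have h2 : (N : ℝ) ^ ((k : ℝ) - β) = (N : ℝ) ^ k * (N : ℝ) ^ (-β) := by
        rw [sub_eq_add_neg, Real.rpow_add hN0, Real.rpow_natCast]
      have h3 : (N : ℝ) ^ (-(M : ℝ)) ≤ (N : ℝ) ^ k * (1 / N * (N : ℝ) ^ (-β)) := by
        have h4 : (N : ℝ) ^ k * (1 / N * (N : ℝ) ^ (-β)) = (N : ℝ) ^ ((k : ℝ) - 1 - β) := by
          rw [show (k : ℝ) - 1 - β = (k : ℝ) + (-1 + -β) by ring, Real.rpow_add hN0,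
            Real.rpow_natCast, Real.rpow_add hN0, Real.rpow_neg_one, one_div]
        rw [h4]
        exact Real.rpow_le_rpow_of_exponent_le hN1 (by linarith)
      have h5 : (N : ℝ) ^ k * |b N - cmp c e N| ≤
          (N : ℝ) ^ k * (C * (ε + 1 / N) * (N : ℝ) ^ (-β)) := by
        refine h1.trans ?_
        rw [h2]
        have := mul_le_mul_of_nonneg_left h3 hC
        calc C * (ε * ((N : ℝ) ^ k * (N : ℝ) ^ (-β)) + (N : ℝ) ^ (-(M : ℝ)))
            ≤ C * (ε * ((N : ℝ) ^ k * (N : ℝ) ^ (-β)) +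
                (N : ℝ) ^ k * (1 / N * (N : ℝ) ^ (-β))) :=
              mul_le_mul_of_nonneg_left (by linarith) hC
          _ = _ := by ring
      exact le_of_mul_le_mul_left h5 (by positivity)
    have hlarge : ∀ s₀ : ℝ, 0 < s₀ → ∀ᶠ N : ℕ in atTop, 1 / (N : ℝ) < s₀ := fun s₀ hs₀ =>
      (tendsto_one_div_atTop_nhds_zero_nat (𝕜 := ℝ)).eventually (gt_mem_nhds hs₀)
    constructor
    · intro hh
      rw [Asymptotics.isLittleO_iff]
      intro δ hδ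
      set ε : ℝ := δ / (2 * (C + 1)) with hε
      have hε0 : 0 < ε := by positivity
      obtain ⟨s₀, hs₀, h1⟩ := hh ε hε0
      filter_upwards [hlarge s₀ hs₀, hlarge ε hε0, eventually_ge_atTop 1] with N h2 h3 h4
      have h5 := key N h4 ε s₀ hε0.le h2 h1
      have hN0 : (0 : ℝ) < N := by exact_mod_cast h4
      rw [Real.norm_eq_abs, Real.norm_eq_abs, abs_of_nonneg (by positivity : (0:ℝ) ≤ (N : ℝ) ^ (-β))]
      refine h5.trans (mul_le_mul_of_nonneg_right ?_ (by positivity))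
      have h6 : C * (ε + 1 / N) ≤ (C + 1) * (2 * ε) := by
        have : ε + 1 / (N : ℝ) ≤ 2 * ε := by linarith
        calc C * (ε + 1 / N) ≤ C * (2 * ε) := mul_le_mul_of_nonneg_left this hC
          _ ≤ (C + 1) * (2 * ε) := by nlinarith
      refine h6.trans (le_of_eq ?_)
      rw [hε]
      field_simp
    · rintro ⟨C', s₀, hs₀, h1⟩
      refine Asymptotics.IsBigO.of_bound (C * (|C'| + 1)) ?_
      filter_upwards [hlarge s₀ hs₀, eventually_ge_atTop 1] with N h2 h4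
      have hN1 : (1 : ℝ) ≤ N := by exact_mod_cast h4
      have h5 := key N h4 |C'| s₀ (abs_nonneg _) h2 fun s hs => (h1 s hs).trans
        (mul_le_mul_of_nonneg_right (le_abs_self _) (by positivity))
      rw [Real.norm_eq_abs, Real.norm_eq_abs, abs_of_nonneg (by positivity : (0:ℝ) ≤ (N : ℝ) ^ (-β))]
      refine h5.trans (mul_le_mul_of_nonneg_right (mul_le_mul_of_nonneg_left ?_ hC) (by positivity))
      have : 1 / (N : ℝ) ≤ 1 := by rw [div_le_one (by linarith)]; exact hN1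
      linarith

end Pool.Agent.H16TT
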